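import Mathlib

/-!
# Transfer theorem: from sets in the torus to sets without three-term progressions

A *model* is a finite set `S ⊆ (ℤ/M)^D` of density at least `μ` with a bounded weight
`f` such that `f x + f z - 2 f y ≥ c * ∑ ‖(x_i - z_i)/M‖²` whenever `x, y, z ∈ S` and
`x + z = y + y`.  If such models exist for all large primes `M`, with fixed
`D, μ, B, c`, then
`r_3(N) ≥ N exp (-(2 √(2 log (1/μ) / D) + ε) √(log N))`.
-/

namespace MP0f71ae

open Finset

/-- The distance from `t / M` to the nearest integer. -/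
noncomputable def cnorm {M : ℕ} (t : ZMod M) : ℝ := |(t.valMinAbs : ℝ)| / M

lemma cnorm_nonneg {M : ℕ} (t : ZMod M) : 0 ≤ cnorm t := by
  unfold cnorm; positivity

/-- A finite model: a dense subset of `(ℤ/M)^D` with a bounded weight that is strictly convex
along its three-term progressions. -/
structure Model (D M : ℕ) (μ B c : ℝ) (S : Finset (Fin D → ZMod M))
    (f : (Fin D → ZMod M) → ℝ) : Prop where
  card : μ * (M : ℝ) ^ D ≤ S.card
  lo : ∀ v ∈ S, 0 ≤ f v
  hi : ∀ v ∈ S, f v ≤ B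
  mid : ∀ x ∈ S, ∀ y ∈ S, ∀ z ∈ S, x + z = y + y →
    c * ∑ i, cnorm (x i - z i) ^ 2 ≤ f x + f z - 2 * f y

section Count

variable {M : ℕ} [NeZero M]

lemma card_cnorm_lt (r : ℝ) (hr : 0 ≤ r) :
    ((univ.filter (fun t : ZMod M => cnorm t < r)).card : ℝ) ≤ 2 * r * M + 1 := by
  have hM : (0 : ℝ) < M := by
    have := NeZero.pos M
    exact_mod_cast this
  set R : ℤ := ⌊r * M⌋ with hR
  have hR0 : 0 ≤ R := Int.floor_nonneg.mpr (by positivity)
  have h1 : (univ.filter (fun t : ZMod M => cnorm t < r)).card ≤ (Finset.Icc (-R) R).card := by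
    apply Finset.card_le_card_of_injOn (fun t => t.valMinAbs)
    · intro t ht
      simp only [coe_filter, mem_univ, true_and, Set.mem_ofPred_eq] at ht
      unfold cnorm at ht
      rw [div_lt_iff₀ hM] at ht
      have h2 : |t.valMinAbs| ≤ R := by
        rw [hR, Int.le_floor]
        push_cast
        exact ht.le
      rw [abs_le] at h2
      simp only [coe_Icc, Set.mem_Icc]
      exact h2
    · intro a _ b _ hab
      exact ZMod.injective_valMinAbs hab
  have h3 : ((Finset.Icc (-R) R).card : ℝ) = 2 * R + 1 := by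
    rw [Int.card_Icc]
    have h4 : ((R + 1 - -R).toNat : ℤ) = R + 1 - -R := Int.toNat_of_nonneg (by omega)
    have h5 : (((R + 1 - -R).toNat : ℤ) : ℝ) = ((R + 1 - -R : ℤ) : ℝ) := by rw [h4]
    have h6 : ((R + 1 - -R).toNat : ℝ) = ((R + 1 - -R : ℤ) : ℝ) := by exact_mod_cast h5
    rw [h6]; push_cast; ring
  have h7 : (R : ℝ) ≤ r * M := Int.floor_le _
  calc ((univ.filter (fun t : ZMod M => cnorm t < r)).card : ℝ)
      ≤ ((Finset.Icc (-R) R).card : ℝ) := by exact_mod_cast h1
    _ = 2 * R + 1 := h3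
    _ ≤ 2 * r * M + 1 := by nlinarith

end Count

section Core

variable {M : ℕ} [Fact M.Prime] {D n : ℕ}

lemma two_ne_zero' (h2 : 2 < M) : (2 : ZMod M) ≠ 0 := by
  intro h
  have h1 : ((2 : ℕ) : ZMod M) = 0 := by exact_mod_cast h
  rw [ZMod.natCast_eq_zero_iff] at h1
  exact absurd (Nat.le_of_dvd (by norm_num) h1) (by omega)

/-- The set of small displacements. -/
noncomputable def small (D n M : ℕ) [NeZero M] (r : ℝ) : Finset (Fin n → Fin D → ZMod M) :=
  Fintype.piFinset fun _ => Fintype.piFinset fun _ =>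
    univ.filter (fun t : ZMod M => cnorm (t + t) < r)

lemma mem_small [NeZero M] (r : ℝ) (δ : Fin n → Fin D → ZMod M) :
    δ ∈ small D n M r ↔ ∀ i k, cnorm (δ i k + δ i k) < r := by
  simp [small, Fintype.mem_piFinset]

lemma card_small (h2 : 2 < M) (r : ℝ) (hr : 0 ≤ r) :
    ((small D n M r).card : ℝ) ≤ (2 * r * M + 1) ^ (D * n) := by
  unfold small
  rw [Fintype.card_piFinset_const, Fintype.card_piFinset_const, ← pow_mul]
  have h1 : (univ.filter (fun t : ZMod M => cnorm (t + t) < r)).card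
      = (univ.filter (fun t : ZMod M => cnorm t < r)).card := by
    apply Finset.card_bij (fun t _ => t + t)
    · intro t ht
      simpa using ht
    · intro a _ b _ hab
      have h3 : (2 : ZMod M) * a = 2 * b := by simpa [two_mul] using hab
      exact mul_left_cancel₀ (two_ne_zero' h2) h3
    · intro b hb
      refine ⟨b / 2, ?_, ?_⟩
      · have : b / 2 + b / 2 = b := by
          rw [← two_mul]; field_simp [two_ne_zero' h2]
        simp only [mem_filter, mem_univ, true_and] at hb ⊢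
        rw [this]; exact hb
      · rw [← two_mul]; field_simp [two_ne_zero' h2]
  rw [h1]
  push_cast
  gcongr
  exact card_cnorm_lt r hr

/-- Abbreviation for the ambient group. -/
abbrev Amb (D n M : ℕ) := Fin n → Fin D → ZMod M

lemma count_pairs [NeZero M] (P K : Finset (Amb D n M)) (a b : ZMod M) (hab : a ≠ b) :
    (univ.filter (fun q : Amb D n M × Amb D n M =>
      q.1 + a • q.2 ∈ P ∧ (b - a) • q.2 ∈ K)).card = P.card * K.card := by
  have hu : b - a ≠ 0 := sub_ne_zero.mpr (Ne.symm hab)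
  rw [← Finset.card_product]
  apply Finset.card_nbij' (fun q => (q.1 + a • q.2, (b - a) • q.2))
    (fun q => (q.1 - a • ((b - a)⁻¹ • q.2), (b - a)⁻¹ • q.2))
  · intro q hq
    simp only [coe_filter, mem_univ, true_and, Set.mem_ofPred_eq] at hq
    simp only [coe_product, Set.mem_prod, mem_coe]
    exact hq
  · intro q hq
    simp only [coe_product, Set.mem_prod, mem_coe] at hq
    simp only [coe_filter, mem_univ, true_and, Set.mem_ofPred_eq, sub_add_cancel]
    refine ⟨hq.1, ?_⟩
    rw [smul_smul, mul_inv_cancel₀ hu, one_smul]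
    exact hq.2
  · intro q _
    have h1 : (b - a)⁻¹ • (b - a) • q.2 = q.2 := by
      rw [smul_smul, inv_mul_cancel₀ hu, one_smul]
    ext1
    · simp only [h1, add_sub_cancel_right]
    · exact h1
  · intro q _
    have h1 : (b - a) • (b - a)⁻¹ • q.2 = q.2 := by
      rw [smul_smul, mul_inv_cancel₀ hu, one_smul]
    ext1
    · simp only [sub_add_cancel]
    · exact h1

lemma count_single [NeZero M] (P : Finset (Amb D n M)) (a : ZMod M) :
    (univ.filter (fun q : Amb D n M × Amb D n M => q.1 + a • q.2 ∈ P)).card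
      = P.card * Fintype.card (Amb D n M) := by
  have h := count_pairs P univ a (a + 1) (by simp)
  rw [← Finset.card_univ, ← h]
  congr 1
  ext q
  simp

open Classical in
/-- The deletion argument. -/
lemma deletion [NeZero M] (P K : Finset (Amb D n M)) (N : ℕ) (hN : N ≤ M)
    (hPK : ∀ v δ, v ∈ P → v + δ ∈ P → v - δ ∈ P → δ ∈ K) :
    (N : ℝ) * P.card * Fintype.card (Amb D n M) - (N : ℝ) ^ 2 * (P.card * K.card)
      ≤ rothNumberNat N * (Fintype.card (Amb D n M) : ℝ) ^ 2 := by
  -- hits and bad pairs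
  let H : Amb D n M × Amb D n M → Finset ℕ := fun q => (range N).filter (fun x => q.1 + (x : ZMod M) • q.2 ∈ P)
  let Bd : Amb D n M × Amb D n M → Finset (ℕ × ℕ) := fun q => (range N ×ˢ range N).filter
    (fun p => p.1 ≠ p.2 ∧ (q.1 + (p.1 : ZMod M) • q.2 ∈ P ∧
      ((p.2 : ZMod M) - (p.1 : ZMod M)) • q.2 ∈ K))
  have key : ∀ q, (H q).card ≤ rothNumberNat N + (Bd q).card := by
    intro q
    set A := H q \ (Bd q).image Prod.fst with hA
    have hAsub : A ⊆ H q := sdiff_subset
    have hfree : ThreeAPFree (A : Set ℕ) := by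
      intro a ha b hb c hc hab
      by_contra hne
      have ha' := hAsub ha
      have hb' := hAsub hb
      have hc' := hAsub hc
      simp only [H, mem_filter, mem_range] at ha' hb' hc'
      have hbb : b ∉ (Bd q).image Prod.fst := (mem_sdiff.mp hb).2
      apply hbb
      rw [mem_image]
      refine ⟨(b, a), ?_, rfl⟩
      simp only [Bd, mem_filter, mem_product, mem_range]
      refine ⟨⟨hb'.1, ha'.1⟩, fun h => hne h.symm, hb'.2, ?_⟩
      apply hPK (q.1 + (b : ZMod M) • q.2) _ hb'.2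
      · have : q.1 + (b : ZMod M) • q.2 + ((a : ZMod M) - (b : ZMod M)) • q.2
            = q.1 + (a : ZMod M) • q.2 := by
          rw [sub_smul]; abel
        rw [this]; exact ha'.2
      · have h1 : (a : ZMod M) + (c : ZMod M) = (b : ZMod M) + (b : ZMod M) := by
          exact_mod_cast congrArg (Nat.cast : ℕ → ZMod M) hab
        have h2 : (c : ZMod M) = (b : ZMod M) + b - a := by
          rw [← h1]; ring
        have : q.1 + (b : ZMod M) • q.2 - ((a : ZMod M) - (b : ZMod M)) • q.2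
            = q.1 + (c : ZMod M) • q.2 := by
          rw [h2, sub_smul, sub_smul, add_smul]; abel
        rw [this]; exact hc'.2
    have h1 : A.card ≤ rothNumberNat N := by
      apply ThreeAPFree.le_rothNumberNat A hfree _ rfl
      intro x hx
      have := hAsub hx
      simp only [H, mem_filter, mem_range] at this
      exact this.1
    have h2 : (H q).card ≤ A.card + ((Bd q).image Prod.fst).card := by
      have := Finset.le_card_sdiff ((Bd q).image Prod.fst) (H q)
      rw [← hA] at this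
      omega
    have h3 : ((Bd q).image Prod.fst).card ≤ (Bd q).card := card_image_le
    omega
  have hsumH : ∑ q : Amb D n M × Amb D n M, (H q).card = N * (P.card * Fintype.card (Amb D n M)) := by
    simp only [H, card_filter]
    rw [sum_comm]
    have : ∀ x ∈ range N, ∑ q : Amb D n M × Amb D n M, (if q.1 + (x : ZMod M) • q.2 ∈ P then 1 else 0)
        = P.card * Fintype.card (Amb D n M) := by
      intro x _
      rw [← card_filter]
      exact count_single P _
    rw [sum_congr rfl this, sum_const, card_range, smul_eq_mul]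
  have hsumB : ∑ q : Amb D n M × Amb D n M, (Bd q).card ≤ N * N * (P.card * K.card) := by
    simp only [Bd, card_filter]
    rw [sum_comm]
    have : ∀ p ∈ range N ×ˢ range N, ∑ q : Amb D n M × Amb D n M, (if p.1 ≠ p.2 ∧
        (q.1 + (p.1 : ZMod M) • q.2 ∈ P ∧ ((p.2 : ZMod M) - (p.1 : ZMod M)) • q.2 ∈ K)
          then 1 else 0) ≤ P.card * K.card := by
      intro p hp
      rw [mem_product, mem_range, mem_range] at hp
      by_cases h : p.1 = p.2
      · simp [h]
      · have hne : (p.1 : ZMod M) ≠ (p.2 : ZMod M) := by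
          intro h'
          apply h
          have h1 := (ZMod.natCast_eq_natCast_iff' _ _ _).mp h'
          rwa [Nat.mod_eq_of_lt (by omega), Nat.mod_eq_of_lt (by omega)] at h1
        simp only [ne_eq, h, not_false_eq_true, true_and]
        rw [← card_filter]
        exact (count_pairs P K _ _ hne).le
    calc _ ≤ ∑ p ∈ range N ×ˢ range N, P.card * K.card := sum_le_sum this
      _ = N * N * (P.card * K.card) := by
          rw [sum_const, card_product, card_range, smul_eq_mul]
  have htot : ∑ q : Amb D n M × Amb D n M, (H q).card ≤ ∑ q : Amb D n M × Amb D n M, (rothNumberNat N + (Bd q).card) :=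
    sum_le_sum fun q _ => key q
  rw [hsumH, sum_add_distrib, sum_const, card_univ, Fintype.card_prod, smul_eq_mul] at htot
  have htot' : N * (P.card * Fintype.card (Amb D n M))
      ≤ Fintype.card (Amb D n M) * Fintype.card (Amb D n M) * rothNumberNat N + N * N * (P.card * K.card) := by
    omega
  have h4 : ((N * (P.card * Fintype.card (Amb D n M)) : ℕ) : ℝ)
      ≤ ((Fintype.card (Amb D n M) * Fintype.card (Amb D n M) * rothNumberNat N + N * N * (P.card * K.card) : ℕ) : ℝ) := by
    exact_mod_cast htot'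
  push_cast at h4
  nlinarith [h4]

/-- The total weight. -/
noncomputable def tot (f : (Fin D → ZMod M) → ℝ) (v : Amb D n M) : ℝ := ∑ i, f (v i)

open Classical in
/-- The finite form of the transfer theorem. -/
theorem finite_bound [NeZero M] (h2 : 2 < M) {μ B c r : ℝ} {S : Finset (Fin D → ZMod M)}
    {f : (Fin D → ZMod M) → ℝ} (hS : Model D M μ B c S f) (hμ : 0 ≤ μ) (hc : 0 < c)
    (hr : 0 < r) (N : ℕ) (hN : N ≤ M)
    (hsmall : 2 * (N * (2 * r * M + 1) ^ (D * n)) ≤ (M : ℝ) ^ (D * n)) :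
    (N : ℝ) * μ ^ n ≤ 2 * (⌊n * B / (c * r ^ 2 / 2)⌋₊ + 1) * rothNumberNat N := by
  have hM : (0 : ℝ) < M := by
    have := NeZero.pos M
    exact_mod_cast this
  set w : ℝ := c * r ^ 2 / 2 with hw
  have hw0 : 0 < w := by positivity
  set J : ℕ := ⌊n * B / w⌋₊ + 1 with hJ
  set T : Finset (Amb D n M) := Fintype.piFinset (fun _ => S) with hT
  have hTcard : T.card = S.card ^ n := Fintype.card_piFinset_const _ _
  have hF0 : ∀ v ∈ T, 0 ≤ tot f v := by
    intro v hv
    rw [hT, Fintype.mem_piFinset] at hv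
    exact sum_nonneg fun i _ => hS.lo _ (hv i)
  have hF1 : ∀ v ∈ T, tot f v ≤ n * B := by
    intro v hv
    rw [hT, Fintype.mem_piFinset] at hv
    calc tot f v ≤ ∑ _i : Fin n, B := sum_le_sum fun i _ => hS.hi _ (hv i)
      _ = n * B := by simp
  -- pigeonhole
  obtain ⟨j, hj, hjc⟩ : ∃ j ∈ range J, (T.card : ℝ) / J ≤
      ((T.filter (fun v => ⌊tot f v / w⌋₊ = j)).card : ℝ) := by
    apply Finset.exists_le_card_fiber_of_nsmul_le_card_of_maps_to
    · intro v hv
      rw [mem_range, hJ]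
      have : tot f v / w ≤ n * B / w := by
        gcongr
        exact hF1 v hv
      have := Nat.floor_le_floor this
      omega
    · exact ⟨0, by rw [mem_range]; omega⟩
    · rw [card_range, nsmul_eq_mul]
      have : (0 : ℝ) < J := by rw [hJ]; positivity
      rw [mul_div_cancel₀ _ this.ne']
  set P := T.filter (fun v => ⌊tot f v / w⌋₊ = j) with hP
  have hPslice : ∀ v ∈ P, (j : ℝ) * w ≤ tot f v ∧ tot f v < (j + 1) * w := by
    intro v hv
    rw [hP, mem_filter] at hv
    have h0 : 0 ≤ tot f v / w := div_nonneg (hF0 v hv.1) hw0.le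
    have h1 := Nat.floor_le h0
    have h3 := Nat.lt_floor_add_one (tot f v / w)
    rw [hv.2] at h1 h3
    rw [le_div_iff₀ hw0] at h1
    rw [div_lt_iff₀ hw0] at h3
    exact ⟨h1, h3⟩
  have hPK : ∀ v δ, v ∈ P → v + δ ∈ P → v - δ ∈ P → δ ∈ small D n M r := by
    intro v δ hv hp hm
    rw [mem_small]
    intro i k
    by_contra hcon
    push Not at hcon
    have hvT : ∀ i, v i ∈ S := Fintype.mem_piFinset.mp (mem_filter.mp hv).1
    have hpT : ∀ i, (v + δ) i ∈ S := Fintype.mem_piFinset.mp (mem_filter.mp hp).1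
    have hmT : ∀ i, (v - δ) i ∈ S := Fintype.mem_piFinset.mp (mem_filter.mp hm).1
    have hterm : ∀ i, c * ∑ k, cnorm (δ i k + δ i k) ^ 2
        ≤ f ((v + δ) i) + f ((v - δ) i) - 2 * f (v i) := by
      intro i
      have := hS.mid _ (hpT i) _ (hvT i) _ (hmT i) (by simp only [Pi.add_apply, Pi.sub_apply]; abel)
      have h3 : ∀ k, (v + δ) i k - (v - δ) i k = δ i k + δ i k := by
        intro k
        simp only [Pi.add_apply, Pi.sub_apply]; abel
      simp only [h3] at this
      exact this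
    have hsum : c * ∑ i, ∑ k, cnorm (δ i k + δ i k) ^ 2
        ≤ tot f (v + δ) + tot f (v - δ) - 2 * tot f v := by
      unfold tot
      rw [mul_sum, mul_sum, ← sum_add_distrib, ← sum_sub_distrib]
      exact sum_le_sum fun i _ => hterm i
    have h4 : tot f (v + δ) + tot f (v - δ) - 2 * tot f v < 2 * w := by
      have := (hPslice _ hp).2
      have := (hPslice _ hm).2
      have := (hPslice _ hv).1
      nlinarith
    have h5 : cnorm (δ i k + δ i k) ^ 2 ≤ ∑ i, ∑ k, cnorm (δ i k + δ i k) ^ 2 := by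
      calc cnorm (δ i k + δ i k) ^ 2 ≤ ∑ k, cnorm (δ i k + δ i k) ^ 2 :=
            single_le_sum (f := fun k => cnorm (δ i k + δ i k) ^ 2)
              (fun k _ => sq_nonneg _) (mem_univ k)
        _ ≤ _ := single_le_sum (f := fun i => ∑ k, cnorm (δ i k + δ i k) ^ 2)
              (fun i _ => sum_nonneg fun k _ => sq_nonneg _) (mem_univ i)
    have h6 : r ^ 2 ≤ cnorm (δ i k + δ i k) ^ 2 := by
      gcongr
    have h7 : c * r ^ 2 ≤ c * ∑ i, ∑ k, cnorm (δ i k + δ i k) ^ 2 := by
      gcongr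
      exact h6.trans h5
    have : c * r ^ 2 = 2 * w := by rw [hw]; ring
    linarith
  have hdel := deletion P (small D n M r) N hN hPK
  have hcardV : (Fintype.card (Amb D n M) : ℝ) = (M : ℝ) ^ (D * n) := by
    simp [Amb, ZMod.card, ← pow_mul]
  rw [hcardV] at hdel
  have hk := card_small (D := D) (n := n) h2 r hr.le
  set V : ℝ := (M : ℝ) ^ (D * n) with hV
  have hV0 : 0 < V := by positivity
  set k : ℝ := ((small D n M r).card : ℝ) with hkdef
  have hk0 : 0 ≤ k := Nat.cast_nonneg _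
  set p : ℝ := (P.card : ℝ) with hp
  have hp0 : 0 ≤ p := Nat.cast_nonneg _
  have hJ0 : (0 : ℝ) < J := by rw [hJ]; positivity
  have hNk : 2 * (N * k) ≤ V := by
    calc 2 * (N * k) ≤ 2 * (N * (2 * r * M + 1) ^ (D * n)) := by gcongr
      _ ≤ V := hsmall
  -- lower bound on p
  have hp1 : μ ^ n * V ≤ p * J := by
    have h8 : (T.card : ℝ) ≤ p * J := by
      rwa [div_le_iff₀ hJ0] at hjc
    have h9 : μ ^ n * V ≤ (T.card : ℝ) := by
      rw [hTcard, hV]
      push_cast
      calc μ ^ n * (M : ℝ) ^ (D * n) = (μ * (M : ℝ) ^ D) ^ n := by rw [mul_pow, pow_mul]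
        _ ≤ (S.card : ℝ) ^ n := by
          gcongr
          exact hS.card
    linarith
  have hN0 : (0 : ℝ) ≤ N := Nat.cast_nonneg _
  have h10 : (N : ℝ) * p * V ≤ 2 * (rothNumberNat N * V ^ 2) := by
    have h11 : (N : ℝ) ^ 2 * (p * k) * 2 ≤ N * p * V := by
      have : (N : ℝ) ^ 2 * (p * k) * 2 = (N * p) * (2 * (N * k)) := by ring
      rw [this]
      exact mul_le_mul_of_nonneg_left hNk (by positivity)
    linarith
  have h12 : (N : ℝ) * p ≤ 2 * (rothNumberNat N * V) := by
    have : (N : ℝ) * p * V ≤ 2 * (rothNumberNat N * V) * V := by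
      calc (N : ℝ) * p * V ≤ 2 * (rothNumberNat N * V ^ 2) := h10
        _ = 2 * (rothNumberNat N * V) * V := by ring
    exact le_of_mul_le_mul_right this hV0
  have h13 : (N : ℝ) * μ ^ n * V ≤ 2 * (J : ℝ) * rothNumberNat N * V := by
    calc (N : ℝ) * μ ^ n * V = N * (μ ^ n * V) := by ring
      _ ≤ N * (p * J) := by gcongr
      _ = (N * p) * J := by ring
      _ ≤ (2 * (rothNumberNat N * V)) * J := by gcongr
      _ = 2 * (J : ℝ) * rothNumberNat N * V := by ring
  have h14 := le_of_mul_le_mul_right h13 hV0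
  have h15 : (J : ℝ) = ⌊n * B / w⌋₊ + 1 := by rw [hJ]; push_cast; ring
  rw [← h15]
  exact h14

end Core

section Asymptotic

open Real

lemma log_le_mul_add {ε X : ℝ} (hε : 0 < ε) (hX : 0 < X) :
    log X ≤ ε * X + log (1 / ε) := by
  have h1 : log (ε * X) ≤ ε * X - 1 := log_le_sub_one_of_pos (by positivity)
  rw [log_mul hε.ne' hX.ne'] at h1
  rw [one_div, log_inv]
  linarith

/-- One value of `N` and `n`. -/
lemma one_step {D : ℕ} (hD : 0 < D) {μ B c : ℝ} (hμ0 : 0 < μ) (hB : 0 ≤ B) (hc : 0 < c)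
    (hmodel : ∃ M₀, ∀ M : ℕ, M.Prime → M₀ ≤ M →
      ∃ (S : Finset (Fin D → ZMod M)) (f : (Fin D → ZMod M) → ℝ), Model D M μ B c S f)
    (N n : ℕ) (hN : 0 < N) (hn : 0 < n) :
    (N : ℝ) * exp (-(n * log (1 / μ) + 2 * log (2 * N) / (D * n)
      + log (2 * (18 * n * B / c + 1)))) ≤ rothNumberNat N := by
  obtain ⟨M₀, hM₀⟩ := hmodel
  have hDn : (0 : ℝ) < (D : ℝ) * n := by positivity
  have hNR : (1 : ℝ) ≤ N := by exact_mod_cast hN
  set ℓ : ℝ := log (2 * N) with hℓ
  have hℓ0 : 0 < ℓ := log_pos (by linarith)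
  set ρ : ℝ := exp (-(ℓ / (D * n))) with hρ
  have hρ0 : 0 < ρ := exp_pos _
  set r : ℝ := ρ / 3 with hr
  have hr0 : 0 < r := by positivity
  obtain ⟨M, hMge, hMp⟩ := Nat.exists_infinite_primes (max M₀ (max (N + 3) ⌈1 / r⌉₊))
  have : Fact M.Prime := ⟨hMp⟩
  have : NeZero M := ⟨hMp.ne_zero⟩
  have h1 : M₀ ≤ M := le_trans (le_max_left _ _) hMge
  have h2 : N + 3 ≤ M := le_trans (le_trans (le_max_left _ _) (le_max_right _ _)) hMge
  have h3 : ⌈1 / r⌉₊ ≤ M := le_trans (le_trans (le_max_right _ _) (le_max_right _ _)) hMge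
  have hM0 : (0 : ℝ) < M := by exact_mod_cast hMp.pos
  have h4 : 1 / r ≤ M := le_trans (Nat.le_ceil _) (by exact_mod_cast h3)
  have h5 : 1 ≤ r * M := by
    rw [div_le_iff₀ hr0] at h4
    linarith
  obtain ⟨S, f, hS⟩ := hM₀ M hMp h1
  have h6 : ρ ^ (D * n) = 1 / (2 * N) := by
    rw [hρ, ← exp_nat_mul]
    have : ((D * n : ℕ) : ℝ) * -(ℓ / (D * n)) = -ℓ := by
      push_cast
      field_simp
    rw [this, exp_neg, hℓ, exp_log (by positivity), one_div]
  have hsmall : 2 * (N * (2 * r * M + 1) ^ (D * n)) ≤ (M : ℝ) ^ (D * n) := by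
    have h7 : (2 * r * M + 1) ^ (D * n) ≤ (ρ * M) ^ (D * n) := by
      have : 2 * r * M + 1 ≤ ρ * M := by
        have : ρ = 3 * r := by rw [hr]; ring
        rw [this]; linarith
      gcongr
    calc 2 * (N * (2 * r * M + 1) ^ (D * n)) ≤ 2 * (N * (ρ * M) ^ (D * n)) := by gcongr
      _ = (2 * N * ρ ^ (D * n)) * (M : ℝ) ^ (D * n) := by rw [mul_pow]; ring
      _ = (M : ℝ) ^ (D * n) := by
        rw [h6]; field_simp
  have hfin := finite_bound (n := n) (by omega : 2 < M) hS hμ0.le hc hr0 N (by omega) hsmall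
  -- bound the number of slices
  set y : ℝ := exp (2 * ℓ / (D * n)) with hy
  have hy1 : 1 ≤ y := by
    rw [hy]; exact one_le_exp (by positivity)
  have h8 : y * ρ ^ 2 = 1 := by
    rw [hy, hρ, ← exp_nat_mul, ← exp_add]
    have : 2 * ℓ / (D * n) + ((2 : ℕ) : ℝ) * -(ℓ / (D * n)) = 0 := by push_cast; ring
    rw [this, exp_zero]
  have h9 : n * B / (c * r ^ 2 / 2) = 18 * n * B / c * y := by
    have hρ2 : ρ ^ 2 ≠ 0 := by positivity
    have : y = 1 / ρ ^ 2 := by field_simp; linarith
    rw [this, hr]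
    field_simp
    ring
  have h10 : (⌊n * B / (c * r ^ 2 / 2)⌋₊ : ℝ) + 1 ≤ (18 * n * B / c + 1) * y := by
    have h11 : (⌊n * B / (c * r ^ 2 / 2)⌋₊ : ℝ) ≤ n * B / (c * r ^ 2 / 2) :=
      Nat.floor_le (by positivity)
    rw [h9] at h11 ⊢
    nlinarith
  have hR0 : (0 : ℝ) ≤ rothNumberNat N := Nat.cast_nonneg _
  have h12 : (N : ℝ) * μ ^ n ≤ (2 * (18 * n * B / c + 1)) * y * rothNumberNat N := by
    calc (N : ℝ) * μ ^ n ≤ 2 * (⌊n * B / (c * r ^ 2 / 2)⌋₊ + 1) * rothNumberNat N := hfin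
      _ ≤ 2 * ((18 * n * B / c + 1) * y) * rothNumberNat N := by gcongr
      _ = _ := by ring
  set G : ℝ := 2 * (18 * n * B / c + 1) with hG
  have hG0 : 0 < G := by positivity
  have h13 : exp (-(n * log (1 / μ) + 2 * ℓ / (D * n) + log G)) = μ ^ n / (y * G) := by
    rw [neg_add, neg_add, exp_add, exp_add, exp_neg (log G), exp_log hG0, exp_neg (2 * ℓ / _),
      ← hy]
    have : -(n * log (1 / μ)) = n * log μ := by
      rw [one_div, log_inv]; ring
    rw [this, exp_nat_mul, exp_log hμ0]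
    field_simp
  rw [h13]
  rw [← mul_div_assoc, div_le_iff₀ (by positivity)]
  calc (N : ℝ) * μ ^ n ≤ G * y * rothNumberNat N := h12
    _ = rothNumberNat N * (y * G) := by ring

/-- **Transfer theorem.** -/
theorem transfer {D : ℕ} (hD : 0 < D) {μ B c : ℝ} (hμ0 : 0 < μ) (hμ1 : μ < 1) (hB : 0 ≤ B)
    (hc : 0 < c)
    (hmodel : ∃ M₀, ∀ M : ℕ, M.Prime → M₀ ≤ M →
      ∃ (S : Finset (Fin D → ZMod M)) (f : (Fin D → ZMod M) → ℝ), Model D M μ B c S f)
    {ε : ℝ} (hε : 0 < ε) :
    ∃ N₀ : ℕ, ∀ N : ℕ, N₀ ≤ N →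
      (N : ℝ) * exp (-((2 * √(2 * log (1 / μ) / D) + ε) * √(log N))) ≤ rothNumberNat N := by
  set L : ℝ := log (1 / μ) with hL
  have hL0 : 0 < L := by
    rw [hL]; exact log_pos (by rw [lt_div_iff₀ hμ0]; linarith)
  have hDR : (0 : ℝ) < D := by exact_mod_cast hD
  set a : ℝ := √(2 / (D * L)) with ha
  have ha0 : 0 < a := by rw [ha]; positivity
  set s : ℝ := √(2 * L / D) with hs
  have hs0 : 0 < s := by rw [hs]; positivity
  have hs1 : a * L = s := by
    rw [ha, hs]
    rw [show L = √(L ^ 2) by rw [sqrt_sq hL0.le], ← sqrt_mul (by positivity), sqrt_sq hL0.le]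
    congr 1
    field_simp
  have hs2 : 2 / (D * a) = s := by
    have h1 : a * s = 2 / D := by
      rw [ha, hs, ← sqrt_mul (by positivity)]
      rw [show 2 / (D * L) * (2 * L / D) = (2 / D) ^ 2 by field_simp]
      exact sqrt_sq (by positivity)
    rw [div_eq_iff (by positivity)]
    calc (2 : ℝ) = D * (2 / D) := by field_simp
      _ = s * (D * a) := by rw [← h1]; ring
  -- constants
  set K₀ : ℝ := L + 2 * log 2 / D with hK₀
  set K₁ : ℝ := 2 * (18 * (a + 1) * B / c + 1) with hK₁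
  have hK₁0 : 0 < K₁ := by positivity
  set X₀ : ℝ := max 1 (2 / ε * (K₀ + log K₁ + log (1 / (ε / 2)))) with hX₀
  refine ⟨⌈exp (X₀ ^ 2)⌉₊ + 1, fun N hN => ?_⟩
  have hN1 : exp (X₀ ^ 2) ≤ N := le_trans (Nat.le_ceil _) (by exact_mod_cast (by omega))
  have hN0 : 0 < N := by omega
  have hNR : (0 : ℝ) < N := by exact_mod_cast hN0
  have hX₀1 : 1 ≤ X₀ := le_max_left _ _
  have hlog : X₀ ^ 2 ≤ log N := by
    rw [← log_exp (X₀ ^ 2)]
    exact log_le_log (exp_pos _) hN1
  set X : ℝ := √(log N) with hX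
  have hXX₀ : X₀ ≤ X := by
    rw [hX]; exact le_sqrt_of_sq_le hlog
  have hX1 : 1 ≤ X := hX₀1.trans hXX₀
  have hX0 : 0 < X := by linarith
  have hlogN : log N = X ^ 2 := by
    rw [hX, sq_sqrt]
    exact le_trans (by positivity) hlog
  set n : ℕ := ⌈a * X⌉₊ with hn
  have hn0 : 0 < n := Nat.ceil_pos.mpr (by positivity)
  have hn1 : a * X ≤ n := Nat.le_ceil _
  have hn2 : (n : ℝ) ≤ a * X + 1 := (Nat.ceil_lt_add_one (by positivity)).le
  have hnR : (0 : ℝ) < n := by exact_mod_cast hn0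
  have hstep := one_step hD hμ0 hB hc hmodel N n hN0 hn0
  refine le_trans ?_ hstep
  gcongr
  rw [← hL]
  have e1 : n * L ≤ s * X + L := by
    calc n * L ≤ (a * X + 1) * L := by gcongr
      _ = (a * L) * X + L := by ring
      _ = s * X + L := by rw [hs1]
  have e2 : 2 * log (2 * N) / (D * n) ≤ s * X + 2 * log 2 / D := by
    rw [log_mul (by norm_num) hNR.ne', hlogN]
    have h1 : 2 * (log 2 + X ^ 2) / (D * n) = 2 * log 2 / (D * n) + 2 * X ^ 2 / (D * n) := by ring
    rw [h1]
    have h2 : 2 * log 2 / (D * n) ≤ 2 * log 2 / D := by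
      have hlog2 : 0 < log 2 := log_pos (by norm_num)
      have : (1 : ℝ) ≤ n := by exact_mod_cast hn0
      have h3 : (D : ℝ) ≤ D * n := by nlinarith
      gcongr
    have h4 : 2 * X ^ 2 / (D * n) ≤ s * X := by
      calc 2 * X ^ 2 / (D * n) ≤ 2 * X ^ 2 / (D * (a * X)) := by gcongr
        _ = 2 / (D * a) * X := by field_simp
        _ = s * X := by rw [hs2]
    linarith
  have e3 : log (2 * (18 * n * B / c + 1)) ≤ log K₁ + log X := by
    rw [← log_mul hK₁0.ne' hX0.ne']
    apply log_le_log (by positivity)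
    rw [hK₁]
    have h1 : (n : ℝ) ≤ (a + 1) * X := by nlinarith
    have h2 : 18 * n * B / c ≤ 18 * (a + 1) * B / c * X := by
      calc 18 * n * B / c ≤ 18 * ((a + 1) * X) * B / c := by gcongr
        _ = 18 * (a + 1) * B / c * X := by ring
    nlinarith
  have e4 := log_le_mul_add (ε := ε / 2) (X := X) (by positivity) hX0
  have e5 : K₀ + log K₁ + log (1 / (ε / 2)) ≤ ε / 2 * X := by
    have h1 : 2 / ε * (K₀ + log K₁ + log (1 / (ε / 2))) ≤ X := le_trans (le_max_right _ _) hXX₀
    calc K₀ + log K₁ + log (1 / (ε / 2))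
        = ε / 2 * (2 / ε * (K₀ + log K₁ + log (1 / (ε / 2)))) := by field_simp
      _ ≤ ε / 2 * X := by gcongr
  have e6 : (2 * s + ε) * X = 2 * s * X + ε * X := by ring
  rw [e6]
  rw [hK₀] at e5
  linarith

end Asymptotic

end MP0f71ae
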