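import Pool.Agent.MP_0f71ae_nt.RegBase

/-!
# Good scales for the Roth numbers (MP_0f71ae_nt)
-/

set_option autoImplicit false

namespace Pool.Agent.MP_0f71ae_nt.Reg

open Finset

/-- Telescoping: a slowly decreasing sequence rarely drops over a window. -/
theorem card_drop_le (b : ℕ → ℝ) (hb : Antitone b) (h0 : b 0 ≤ 0) (D : ℝ) (hD : 0 ≤ D)
    (hlow : ∀ k : ℕ, -(D * √k) ≤ b k) (s : ℕ) (κ : ℝ) (_hκ : 0 < κ) (K : ℕ) :
    (((Finset.Ico s K).filter (fun k => κ < b (k - s) - b (k + s))).card : ℝ) * κ ≤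
      2 * s * (D * √((K + s : ℕ) : ℝ)) := by
  have hneg : ∀ k, b k ≤ 0 := fun k => (hb (Nat.zero_le k)).trans h0
  -- sum of drops
  have hsum : ∀ j : ℕ, ∑ k ∈ Finset.Ico s (s + j), (b (k - s) - b (k + s)) ≤
      -∑ i ∈ Finset.Ico j (j + 2 * s), b i := by
    intro j
    induction j with
    | zero =>
      simp only [add_zero, Finset.Ico_self, Finset.sum_empty, zero_add]
      rw [← Finset.sum_neg_distrib]
      exact Finset.sum_nonneg (fun i _ => by linarith [hneg i])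
    | succ j ih =>
      rw [← add_assoc, Finset.sum_Ico_succ_top (by omega)]
      have h1 : ∑ i ∈ Finset.Ico j (j + 2 * s + 1), b i =
          ∑ i ∈ Finset.Ico j (j + 2 * s), b i + b (j + 2 * s) :=
        Finset.sum_Ico_succ_top (by omega) _
      have h2 : ∑ i ∈ Finset.Ico j (j + 2 * s + 1), b i =
          b j + ∑ i ∈ Finset.Ico (j + 1) (j + 2 * s + 1), b i :=
        Finset.sum_eq_sum_Ico_succ_bot (by omega) _
      have h3 : j + 1 + 2 * s = j + 2 * s + 1 := by ring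
      have h4 : s + j - s = j := by omega
      have h5 : s + j + s = j + 2 * s := by ring
      rw [h3, h4, h5]
      linarith
  by_cases hK : s ≤ K
  · obtain ⟨j, rfl⟩ := Nat.exists_eq_add_of_le hK
    have h1 : (((Finset.Ico s (s + j)).filter (fun k => κ < b (k - s) - b (k + s))).card : ℝ) * κ
        ≤ ∑ k ∈ Finset.Ico s (s + j), (b (k - s) - b (k + s)) := by
      rw [← nsmul_eq_mul]
      refine (Finset.card_nsmul_le_sum _ (fun k => b (k - s) - b (k + s)) κ ?_).trans ?_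
      · intro k hk
        exact (Finset.mem_filter.1 hk).2.le
      · apply Finset.sum_le_sum_of_subset_of_nonneg (Finset.filter_subset _ _)
        intro k _ _
        have := hb (show k - s ≤ k + s by omega)
        linarith
    have h2 : -∑ i ∈ Finset.Ico j (j + 2 * s), b i ≤
        ∑ i ∈ Finset.Ico j (j + 2 * s), D * √((s + j + s : ℕ) : ℝ) := by
      rw [← Finset.sum_neg_distrib]
      apply Finset.sum_le_sum
      intro i hi
      have hi' := Finset.mem_Ico.1 hi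
      have h3 := hlow i
      have h4 : √(i : ℝ) ≤ √((s + j + s : ℕ) : ℝ) := by
        apply Real.sqrt_le_sqrt
        exact_mod_cast (by omega : i ≤ s + j + s)
      have h5 := mul_le_mul_of_nonneg_left h4 hD
      linarith
    rw [Finset.sum_const, Nat.card_Ico, nsmul_eq_mul] at h2
    have h6 : ((j + 2 * s - j : ℕ) : ℝ) = 2 * s := by
      have : j + 2 * s - j = 2 * s := by omega
      rw [this]; push_cast; ring
    rw [h6] at h2
    exact h1.trans ((hsum j).trans h2)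
  · rw [Finset.Ico_eq_empty_of_le (by omega)]
    simp only [Finset.filter_empty, Finset.card_empty, Nat.cast_zero, zero_mul]
    positivity

/-- The scale `k` is good with parameters `s`, `η`. -/
def Good (s : ℕ) (η : ℝ) (k : ℕ) : Prop :=
  s ≤ k ∧ (1 - η) * 2 ^ (2 * s) * (r3 (2 ^ (k - s)) : ℝ) ≤ r3 (2 ^ (k + s))

theorem card_not_good_unif (η : ℝ) (h0 : 0 < η) (h1 : η < 1) :
    ∃ C : ℝ, 0 ≤ C ∧ ∀ s : ℕ, 1 ≤ s → ∀ (K : ℕ) (S : Finset ℕ), S ⊆ Finset.range K →
      (∀ k ∈ S, ¬ Good s η k) → (S.card : ℝ) ≤ C * s * √K := by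
  classical
  set b : ℕ → ℝ := fun k => Real.log (r3 (2 ^ k)) - k * Real.log 2 with hb
  have hl2 : 0 < Real.log 2 := Real.log_pos (by norm_num)
  have hpos : ∀ k : ℕ, (0 : ℝ) < r3 (2 ^ k) := fun k => by
    have := r3_pos (N := 2 ^ k) Nat.one_le_two_pow
    exact_mod_cast this
  have hanti : Antitone b := by
    apply antitone_nat_of_succ_le
    intro k
    have h2 : (r3 (2 ^ (k + 1)) : ℝ) ≤ 2 * r3 (2 ^ k) := by
      have := r3_mul_le 2 (2 ^ k)
      rw [pow_succ, mul_comm (2 ^ k) 2]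
      exact_mod_cast this
    have h3 := Real.log_le_log (hpos (k + 1)) h2
    rw [Real.log_mul (by norm_num) (hpos k).ne'] at h3
    simp only [hb]
    push_cast
    linarith
  have hz : b 0 ≤ 0 := by
    simp only [hb, pow_zero, Nat.cast_zero, zero_mul, sub_zero]
    have h2 : (r3 1 : ℝ) ≤ 1 := by exact_mod_cast r3_le 1
    have h3 : (0 : ℝ) < r3 1 := by simpa using hpos 0
    exact Real.log_nonpos h3.le h2
  set D : ℝ := 4 * √(Real.log 2) with hD
  have hlow : ∀ k : ℕ, -(D * √k) ≤ b k := by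
    intro k
    have h2 := behrend (2 ^ k)
    have h3 : (0 : ℝ) < ((2 ^ k : ℕ) : ℝ) * Real.exp (-4 * √(Real.log ((2 ^ k : ℕ) : ℝ))) := by
      positivity
    have h4 := Real.log_le_log h3 h2
    rw [Real.log_mul (by positivity) (Real.exp_pos _).ne', Real.log_exp] at h4
    push_cast at h4
    rw [Real.log_pow] at h4
    have h5 : √((k : ℝ) * Real.log 2) = √k * √(Real.log 2) := Real.sqrt_mul (Nat.cast_nonneg _) _
    rw [h5] at h4
    simp only [hb, hD]
    have h6 : (4 * √(Real.log 2)) * √(k : ℝ) = 4 * (√(k : ℝ) * √(Real.log 2)) := by ring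
    rw [h6]
    linarith
  set κ : ℝ := -Real.log (1 - η) with hκ
  have hκ0 : 0 < κ := by
    rw [hκ]
    have := Real.log_neg (show (0 : ℝ) < 1 - η by linarith) (by linarith)
    linarith
  have hD0 : 0 ≤ D := by positivity
  refine ⟨1 + 2 * (D * √2) / κ, by positivity, ?_⟩
  intro s hs1 K S hS hbad
  by_cases hK : K = 0
  · subst hK
    have : S = ∅ := by simpa using hS
    rw [this]
    simp
  have hK1 : 1 ≤ K := Nat.one_le_iff_ne_zero.2 hK
  have hsub : S ⊆ Finset.range s ∪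
      (Finset.Ico s K).filter (fun k => κ < b (k - s) - b (k + s)) := by
    intro k hk
    rw [Finset.mem_union]
    by_cases hks : k < s
    · left; exact Finset.mem_range.2 hks
    · right
      have hkK := Finset.mem_range.1 (hS hk)
      rw [Finset.mem_filter, Finset.mem_Ico]
      refine ⟨⟨by omega, hkK⟩, ?_⟩
      have h2 := hbad k hk
      unfold Good at h2
      push Not at h2
      have h3 := h2 (by omega)
      have h4 := Real.log_lt_log (hpos (k + s)) h3
      rw [Real.log_mul (by have := hpos (k - s); have : (0:ℝ) < 1 - η := by linarith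
                           positivity) (hpos (k - s)).ne',
        Real.log_mul (by linarith) (by positivity), Real.log_pow] at h4
      simp only [hb]
      have h5 : ((k + s : ℕ) : ℝ) = ((k - s : ℕ) : ℝ) + 2 * s := by
        have : k + s = (k - s) + 2 * s := by omega
        rw [this]; push_cast; ring
      rw [h5]
      push_cast at h4 ⊢
      rw [hκ]
      linarith
  have hsK : (1 : ℝ) ≤ √(K : ℝ) := by
    rw [Real.one_le_sqrt]
    exact_mod_cast hK1
  have hs1r : (1 : ℝ) ≤ s := by exact_mod_cast hs1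
  by_cases hKs : K < s
  · -- trivial bound
    have h2 : (S.card : ℝ) ≤ K := by
      have := Finset.card_le_card hS
      rw [Finset.card_range] at this
      exact_mod_cast this
    have h3 : (K : ℝ) = √K * √K := (Real.mul_self_sqrt (Nat.cast_nonneg _)).symm
    have h4 : √(K : ℝ) ≤ s := by
      have h5 : √(K : ℝ) ≤ K := by
        calc √(K : ℝ) = √(K : ℝ) * 1 := (mul_one _).symm
          _ ≤ √(K : ℝ) * √(K : ℝ) := mul_le_mul_of_nonneg_left hsK (Real.sqrt_nonneg _)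
          _ = K := h3.symm
      have h6 : (K : ℝ) ≤ s := by exact_mod_cast hKs.le
      linarith
    have h7 : (K : ℝ) ≤ s * √K := by
      calc (K : ℝ) = √K * √K := h3
        _ ≤ s * √K := mul_le_mul_of_nonneg_right h4 (Real.sqrt_nonneg _)
    have h8 : (1 : ℝ) * s * √K ≤ (1 + 2 * (D * √2) / κ) * s * √K := by
      have : (0 : ℝ) ≤ 2 * (D * √2) / κ := by positivity
      gcongr
      linarith
    linarith
  push Not at hKs
  have hcard := Finset.card_le_card hsub
  have hcard2 := hcard.trans (Finset.card_union_le _ _)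
  rw [Finset.card_range] at hcard2
  have hcard3 : (S.card : ℝ) ≤ s +
      ((Finset.Ico s K).filter (fun k => κ < b (k - s) - b (k + s))).card := by
    exact_mod_cast hcard2
  have hdrop := card_drop_le b hanti hz D (by positivity) hlow s κ hκ0 K
  rw [← le_div_iff₀ hκ0] at hdrop
  have hsq : √((K + s : ℕ) : ℝ) ≤ √2 * √(K : ℝ) := by
    rw [← Real.sqrt_mul (by positivity)]
    apply Real.sqrt_le_sqrt
    push_cast
    have : (s : ℝ) ≤ K := by exact_mod_cast hKs
    linarith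
  calc (S.card : ℝ) ≤ s + 2 * s * (D * √((K + s : ℕ) : ℝ)) / κ := hcard3.trans (by linarith)
    _ ≤ s * √K + 2 * s * (D * (√2 * √(K : ℝ))) / κ := by
        have h2 : (s : ℝ) ≤ s * √K := le_mul_of_one_le_right (Nat.cast_nonneg _) hsK
        have h3 : 2 * s * (D * √((K + s : ℕ) : ℝ)) / κ ≤
            2 * s * (D * (√2 * √(K : ℝ))) / κ := by
          gcongr
        linarith
    _ = (1 + 2 * (D * √2) / κ) * s * √K := by ring

theorem card_not_good (s : ℕ) (η : ℝ) (h0 : 0 < η) (h1 : η < 1) (hs : 1 ≤ s) :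
    ∃ C : ℝ, ∀ (K : ℕ) (S : Finset ℕ), S ⊆ Finset.range K → (∀ k ∈ S, ¬ Good s η k) →
      (S.card : ℝ) ≤ C * √K := by
  obtain ⟨C, -, hC⟩ := card_not_good_unif η h0 h1
  exact ⟨C * s, fun K S hS hbad => hC s hs K S hS hbad⟩

/-- Two-sided control of `r₃(m)` at a good scale: upper bound (holds always). -/
theorem r3_upper (m n : ℕ) (hn : 1 ≤ n) : (r3 m : ℝ) ≤ ((m : ℝ) / n + 1) * r3 n := by
  have h1 := r3_le_div m n hn
  have h2 : (r3 m : ℝ) ≤ ((m / n : ℕ) + 1) * r3 n := by exact_mod_cast h1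
  have h3 : ((m / n : ℕ) : ℝ) ≤ (m : ℝ) / n := Nat.cast_div_le
  have h4 : (0 : ℝ) ≤ r3 n := Nat.cast_nonneg _
  nlinarith

/-- Lower bound at a good scale. -/
theorem r3_lower {s k : ℕ} {η : ℝ} (hk : Good s η k) (m : ℕ) (hm : 1 ≤ m) :
    (1 - η) * ((m : ℝ) / 2 ^ (k - s)) * r3 (2 ^ (k - s)) ≤
      (1 + (m : ℝ) / 2 ^ (k + s)) * r3 m := by
  obtain ⟨hsk, hg⟩ := hk
  have h1 := r3_upper (2 ^ (k + s)) m hm
  push_cast at h1
  have hmr : (0 : ℝ) < m := by exact_mod_cast hm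
  have h2 : (2 : ℝ) ^ (k + s) = 2 ^ (2 * s) * 2 ^ (k - s) := by
    rw [← pow_add]; congr 1; omega
  have hW : (0 : ℝ) < 2 ^ (k + s) := by positivity
  have hn : (0 : ℝ) < 2 ^ (k - s) := by positivity
  have h3 : (1 - η) * 2 ^ (2 * s) * (r3 (2 ^ (k - s)) : ℝ) ≤
      ((2 : ℝ) ^ (k + s) / m + 1) * r3 m := hg.trans h1
  have h4 := mul_le_mul_of_nonneg_left h3 (show (0 : ℝ) ≤ (m : ℝ) / 2 ^ (k + s) by positivity)
  have h5 : (m : ℝ) / 2 ^ (k + s) * ((1 - η) * 2 ^ (2 * s) * (r3 (2 ^ (k - s)) : ℝ)) =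
      (1 - η) * ((m : ℝ) / 2 ^ (k - s)) * r3 (2 ^ (k - s)) := by
    rw [h2]; field_simp
  have h6 : (m : ℝ) / 2 ^ (k + s) * (((2 : ℝ) ^ (k + s) / m + 1) * r3 m) =
      (1 + (m : ℝ) / 2 ^ (k + s)) * r3 m := by
    field_simp
  rw [h5, h6] at h4
  exact h4

/-- Summary of the bounds at a good scale. -/
theorem good_bounds {s k N : ℕ} {η t : ℝ} (ht : t = (1 / 2) ^ s) (hk : Good s η k)
    (hN : 2 ^ k ≤ N) (hN2 : N < 2 ^ (k + 1)) :
    ∃ R : ℝ, 0 < R ∧ (1 - η) * R ≤ (1 + 2 * t) * r3 N ∧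
      (∀ m : ℕ, (r3 m : ℝ) ≤ ((m : ℝ) / N + t) * R) ∧
      (∀ m : ℕ, 1 ≤ m →
        (1 - η) * ((m : ℝ) / N) * R ≤ (1 + 2 * t * ((m : ℝ) / N)) * r3 m) ∧ 1 / (N : ℝ) ≤ t := by
  have hsk : s ≤ k := hk.1
  have hNpos : 1 ≤ N := Nat.one_le_two_pow.trans hN
  have hNr : (0 : ℝ) < N := by exact_mod_cast hNpos
  have hn : (0 : ℝ) < 2 ^ (k - s) := by positivity
  have hrn : (0 : ℝ) < r3 (2 ^ (k - s)) := by
    have := r3_pos (N := 2 ^ (k - s)) Nat.one_le_two_pow
    exact_mod_cast this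
  have hNk : (2 : ℝ) ^ k ≤ N := by exact_mod_cast hN
  have hNk2 : (N : ℝ) ≤ 2 ^ (k + 1) := by exact_mod_cast hN2.le
  have hts : t * 2 ^ s = 1 := by
    rw [ht, ← mul_pow]; norm_num
  have ht0 : 0 < t := by rw [ht]; positivity
  have hks : (2 : ℝ) ^ k = 2 ^ (k - s) * 2 ^ s := by rw [← pow_add]; congr 1; omega
  have hnN : (2 : ℝ) ^ (k - s) ≤ t * N := by
    have h1 : (2 : ℝ) ^ (k - s) = t * 2 ^ k := by
      rw [hks]
      calc (2 : ℝ) ^ (k - s) = (t * 2 ^ s) * 2 ^ (k - s) := by rw [hts, one_mul]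
        _ = _ := by ring
    rw [h1]
    exact mul_le_mul_of_nonneg_left hNk ht0.le
  have hNW : (N : ℝ) ≤ 2 * t * 2 ^ (k + s) := by
    have h1 : 2 * t * 2 ^ (k + s) = 2 ^ (k + 1) := by
      rw [pow_add, pow_succ]
      calc 2 * t * (2 ^ k * 2 ^ s) = 2 * (t * 2 ^ s) * 2 ^ k := by ring
        _ = _ := by rw [hts]; ring
    rw [h1]; exact hNk2
  have hlow : ∀ m : ℕ, 1 ≤ m →
      (1 - η) * ((m : ℝ) / N) * ((N : ℝ) / 2 ^ (k - s) * r3 (2 ^ (k - s))) ≤
        (1 + 2 * t * ((m : ℝ) / N)) * r3 m := by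
    intro m hm
    have h1 := r3_lower hk m hm
    have h2 : (1 - η) * ((m : ℝ) / N) * ((N : ℝ) / 2 ^ (k - s) * r3 (2 ^ (k - s))) =
        (1 - η) * ((m : ℝ) / 2 ^ (k - s)) * r3 (2 ^ (k - s)) := by
      field_simp
    rw [h2]
    refine h1.trans ?_
    apply mul_le_mul_of_nonneg_right _ (Nat.cast_nonneg _)
    have h3 : (m : ℝ) / 2 ^ (k + s) ≤ 2 * t * ((m : ℝ) / N) := by
      rw [div_le_iff₀ (by positivity)]
      have h4 : 2 * t * ((m : ℝ) / N) * 2 ^ (k + s) = (2 * t * 2 ^ (k + s)) * m / N := by ring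
      rw [h4, le_div_iff₀ hNr, mul_comm (m : ℝ) N]
      exact mul_le_mul_of_nonneg_right hNW (Nat.cast_nonneg _)
    linarith
  refine ⟨(N : ℝ) / 2 ^ (k - s) * r3 (2 ^ (k - s)), by positivity, ?_, ?_, hlow, ?_⟩
  · have h1 := hlow N hNpos
    rw [div_self hNr.ne', mul_one, mul_one] at h1
    exact h1
  · intro m
    have h1 := r3_upper m (2 ^ (k - s)) Nat.one_le_two_pow
    push_cast at h1
    refine h1.trans ?_
    rw [← mul_assoc]
    apply mul_le_mul_of_nonneg_right _ hrn.le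
    have h2 : ((m : ℝ) / N + t) * ((N : ℝ) / 2 ^ (k - s)) =
        (m : ℝ) / 2 ^ (k - s) + t * N / 2 ^ (k - s) := by
      field_simp
    rw [h2]
    have h3 : (1 : ℝ) ≤ t * N / 2 ^ (k - s) := by
      rw [le_div_iff₀ hn, one_mul]; exact hnN
    linarith
  · rw [div_le_iff₀ hNr]
    have h1 : (1 : ℝ) ≤ 2 ^ (k - s) := one_le_pow₀ (by norm_num)
    linarith

end Pool.Agent.MP_0f71ae_nt.Reg
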