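import Pool.Agent.MP_0f71ae_nt.TwoDimZ

namespace MP0f71ae

open Finset

lemma card_Ioo_ge (α β : ℝ) : β - α - 1 ≤ ((Finset.Ioo ⌊α⌋ ⌈β⌉).card : ℝ) := by
  rw [Int.card_Ioo]
  have h1 : (α : ℝ) ≥ ⌊α⌋ := Int.floor_le α
  have h2 : (β : ℝ) ≤ ⌈β⌉ := Int.le_ceil β
  have h3 : ⌈β⌉ - ⌊α⌋ - 1 ≤ ((⌈β⌉ - ⌊α⌋ - 1).toNat : ℤ) := Int.self_le_toNat _
  have h4 : ((⌈β⌉ - ⌊α⌋ - 1 : ℤ) : ℝ) ≤ (((⌈β⌉ - ⌊α⌋ - 1).toNat : ℤ) : ℝ) := by exact_mod_cast h3
  push_cast at h4
  linarith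

lemma mem_Ioo_real {α β : ℝ} {k : ℤ} (h : k ∈ Finset.Ioo ⌊α⌋ ⌈β⌉) : α < k ∧ (k : ℝ) < β := by
  rw [Finset.mem_Ioo] at h
  exact ⟨Int.floor_lt.mp h.1, Int.lt_ceil.mp h.2⟩

section

variable {M : ℕ} [NeZero M]

open Classical in
lemma card_ge_of_ints (Q : ℝ → Prop) (I : Finset ℤ)
    (h : ∀ k ∈ I, (-(M : ℝ) < k * 2 ∧ (k : ℝ) * 2 ≤ M) ∧ Q ((k : ℝ) / M)) :
    I.card ≤ (univ.filter (fun t : ZMod M => Q (aR t))).card := by
  have hv : ∀ k ∈ I, ((k : ZMod M)).valMinAbs = k := by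
    intro k hk
    rw [ZMod.valMinAbs_spec]
    refine ⟨rfl, ?_, ?_⟩
    · have := (h k hk).1.1
      exact_mod_cast this
    · have := (h k hk).1.2
      exact_mod_cast this
  apply Finset.card_le_card_of_injOn (fun k : ℤ => (k : ZMod M))
  · intro k hk
    have hk' : k ∈ I := hk
    simp only [coe_filter, mem_univ, true_and, Set.mem_ofPred_eq]
    unfold aR
    rw [hv k hk']
    exact (h k hk').2
  · intro a ha b hb hab
    have ha' : a ∈ I := ha
    have hb' : b ∈ I := hb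
    have := congrArg ZMod.valMinAbs (hab : (a : ZMod M) = (b : ZMod M))
    rw [hv a ha', hv b hb'] at this
    exact this

open Classical in
lemma col_light (ρ : ℝ) (h1 : ρ ≤ 1 / 2) :
    2 * ρ * M - 1 ≤ ((univ.filter (fun t : ZMod M => |aR t| < ρ)).card : ℝ) := by
  have hM := Mpos (M := M)
  have h2 := card_Ioo_ge (-(ρ * M)) (ρ * M)
  have h3 : (Finset.Ioo ⌊-(ρ * M)⌋ ⌈ρ * M⌉).card
      ≤ (univ.filter (fun t : ZMod M => |aR t| < ρ)).card := by
    apply card_ge_of_ints (fun x => |x| < ρ)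
    intro k hk
    obtain ⟨h4, h5⟩ := mem_Ioo_real hk
    have h6 : ρ * M ≤ 1 / 2 * M := by gcongr
    refine ⟨⟨by linarith, by linarith⟩, ?_⟩
    rw [abs_div, abs_of_pos hM, div_lt_iff₀ hM, abs_lt]
    exact ⟨h4, h5⟩
  have h7 : ((Finset.Ioo ⌊-(ρ * M)⌋ ⌈ρ * M⌉).card : ℝ)
      ≤ ((univ.filter (fun t : ZMod M => |aR t| < ρ)).card : ℝ) := by exact_mod_cast h3
  linarith

open Classical in
lemma col_heavy (η : ℝ) (h1 : η ≤ 1 / 2) :
    η * M - 2 ≤ ((univ.filter (fun t : ZMod M => |sh (aR t)| < η / 2)).card : ℝ) := by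
  have hM := Mpos (M := M)
  set α : ℝ := M * (1 / 4 - η / 4) with hα
  set β : ℝ := M * (1 / 4 + η / 4) with hβ
  have hα0 : M * (1 / 8) ≤ α := by rw [hα]; gcongr; linarith
  have hβ0 : β ≤ M * (3 / 8) := by rw [hβ]; gcongr; linarith
  have h2 := card_Ioo_ge α β
  have h3 := card_Ioo_ge (-β) (-α)
  have hdisj : Disjoint (Finset.Ioo ⌊α⌋ ⌈β⌉) (Finset.Ioo ⌊-β⌋ ⌈-α⌉) := by
    rw [Finset.disjoint_left]
    intro k hk hk'
    obtain ⟨h4, _⟩ := mem_Ioo_real hk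
    obtain ⟨_, h5⟩ := mem_Ioo_real hk'
    linarith
  have h6 : (Finset.Ioo ⌊α⌋ ⌈β⌉ ∪ Finset.Ioo ⌊-β⌋ ⌈-α⌉).card
      ≤ (univ.filter (fun t : ZMod M => |sh (aR t)| < η / 2)).card := by
    apply card_ge_of_ints (fun x => |sh x| < η / 2)
    intro k hk
    rw [mem_union] at hk
    rcases hk with hk | hk
    · obtain ⟨h4, h5⟩ := mem_Ioo_real hk
      refine ⟨⟨by linarith, by linarith⟩, ?_⟩
      have hk0 : 0 ≤ (k : ℝ) / M := by
        apply div_nonneg _ hM.le; linarith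
      have e1 : 1 / 4 - η / 4 < (k : ℝ) / M := by
        rw [lt_div_iff₀ hM]; linarith
      have e2 : (k : ℝ) / M < 1 / 4 + η / 4 := by
        rw [div_lt_iff₀ hM]; linarith
      unfold sh
      rw [if_pos hk0, abs_lt]
      constructor <;> linarith
    · obtain ⟨h4, h5⟩ := mem_Ioo_real hk
      refine ⟨⟨by linarith, by linarith⟩, ?_⟩
      have hk0 : ¬ 0 ≤ (k : ℝ) / M := by
        rw [not_le]
        apply div_neg_of_neg_of_pos _ hM; linarith
      have e1 : -(1 / 4 + η / 4) < (k : ℝ) / M := by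
        rw [lt_div_iff₀ hM]; linarith
      have e2 : (k : ℝ) / M < -(1 / 4 - η / 4) := by
        rw [div_lt_iff₀ hM]; linarith
      unfold sh
      rw [if_neg hk0, abs_lt]
      constructor <;> linarith
  rw [card_union_of_disjoint hdisj] at h6
  have h7 : ((Finset.Ioo ⌊α⌋ ⌈β⌉).card : ℝ) + ((Finset.Ioo ⌊-β⌋ ⌈-α⌉).card : ℝ)
      ≤ ((univ.filter (fun t : ZMod M => |sh (aR t)| < η / 2)).card : ℝ) := by exact_mod_cast h6
  have h8 : β - α = η / 2 * M := by rw [hα, hβ]; ring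
  linarith

open Classical in
/-- columnwise lower bound -/
lemma card_columns (Q : ℝ → ℝ → Prop) (G : ℝ → ℝ)
    (hG : ∀ b : ZMod M, G (bR b) ≤ ((univ.filter (fun t : ZMod M => Q (aR t) (bR b))).card : ℝ)) :
    ∑ i ∈ range M, G ((i : ℝ) / M) ≤
      ((univ.filter (fun v : Fin 2 → ZMod M => Q (aR (v 0)) (bR (v 1)))).card : ℝ) := by
  have h1 : (univ.filter (fun v : Fin 2 → ZMod M => Q (aR (v 0)) (bR (v 1)))).card
      = ∑ b : ZMod M, ((univ.filter (fun v : Fin 2 → ZMod M =>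
          Q (aR (v 0)) (bR (v 1)))).filter (fun v => v 1 = b)).card :=
    Finset.card_eq_sum_card_fiberwise (fun v _ => mem_univ _)
  have h2 : ∀ b : ZMod M, (univ.filter (fun t : ZMod M => Q (aR t) (bR b))).card ≤
      ((univ.filter (fun v : Fin 2 → ZMod M =>
          Q (aR (v 0)) (bR (v 1)))).filter (fun v => v 1 = b)).card := by
    intro b
    apply Finset.card_le_card_of_injOn (fun t => ![t, b])
    · intro t ht
      simp only [coe_filter, mem_univ, true_and, Set.mem_ofPred_eq] at ht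
      simp only [coe_filter, mem_filter, mem_univ, true_and, Set.mem_ofPred_eq]
      simpa using ht
    · intro s _ t _ hst
      have := congrFun hst 0
      simpa using this
  have h3 : ∑ i ∈ range M, G ((i : ℝ) / M) = ∑ b : ZMod M, G (bR b) := by
    symm
    apply Finset.sum_nbij' (fun b => ZMod.val b) (fun i => (i : ZMod M))
    · intro b _
      exact mem_range.mpr (ZMod.val_lt b)
    · intro i _
      exact mem_univ _
    · intro b _
      exact ZMod.natCast_zmod_val b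
    · intro i hi
      exact ZMod.val_cast_of_lt (mem_range.mp hi)
    · intro b _
      rfl
  rw [h3, h1]
  push_cast
  apply sum_le_sum
  intro b _
  refine (hG b).trans ?_
  exact_mod_cast h2 b

end

/-- Riemann sums of affine functions -/
lemma sum_affine (M : ℕ) (hM : 0 < M) {α β : ℝ} (c₀ c₁ : ℝ) (hα : 0 ≤ α) (hαβ : α ≤ β)
    (hβ : β ≤ 1) :
    M * (c₀ * (β - α) + c₁ * (β ^ 2 - α ^ 2) / 2) - (|c₀| + |c₁|) ≤
      ∑ i ∈ (range M).filter (fun i : ℕ => α ≤ (i : ℝ) / M ∧ (i : ℝ) / M < β),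
        (c₀ + c₁ * ((i : ℝ) / M)) := by
  have hM' : (0 : ℝ) < M := by exact_mod_cast hM
  set p : ℕ := ⌈α * M⌉₊ with hp
  set q : ℕ := ⌈β * M⌉₊ with hq
  have hset : (range M).filter (fun i : ℕ => α ≤ (i : ℝ) / M ∧ (i : ℝ) / M < β) = Ico p q := by
    ext i
    rw [mem_filter, mem_range, mem_Ico, hp, hq, Nat.ceil_le, Nat.lt_ceil, le_div_iff₀ hM',
      div_lt_iff₀ hM']
    constructor
    · intro h; exact h.2
    · intro h
      refine ⟨?_, h⟩
      have : (i : ℝ) < M := by nlinarith [h.2]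
      exact_mod_cast this
  rw [hset]
  have hpq : p ≤ q := Nat.ceil_le_ceil (by gcongr)
  have hsum : ∀ q : ℕ, p ≤ q → ∑ i ∈ Ico p q, (c₀ + c₁ * ((i : ℝ) / M))
      = c₀ * ((q : ℝ) - p) + c₁ * ((q : ℝ) * (q - 1) - p * (p - 1)) / (2 * M) := by
    intro q hpq
    induction q, hpq using Nat.le_induction with
    | base => simp
    | succ q hq ih =>
      rw [Finset.sum_Ico_succ_top hq, ih]
      push_cast
      field_simp
      ring
  rw [hsum q hpq]
  have hp1 : α * M ≤ p := Nat.le_ceil _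
  have hp2 : (p : ℝ) < α * M + 1 := Nat.ceil_lt_add_one (by positivity)
  have hq1 : β * M ≤ q := Nat.le_ceil _
  have hq2 : (q : ℝ) < β * M + 1 := Nat.ceil_lt_add_one (by
    have : 0 ≤ β := hα.trans hαβ
    positivity)
  have hβ0 : 0 ≤ β := hα.trans hαβ
  -- quadratic terms
  have hquad : ∀ (γ : ℝ) (k : ℕ), 0 ≤ γ → γ ≤ 1 → γ * M ≤ k → (k : ℝ) < γ * M + 1 →
      |(k : ℝ) * ((k : ℝ) - 1) - (γ * M) ^ 2| ≤ (M : ℝ) := by
    intro γ k h0 h1 h2 h3
    have h4 : γ * M ≤ M := by nlinarith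
    have h5 : 0 ≤ γ * M := by positivity
    have h6 : (0 : ℝ) ≤ k := Nat.cast_nonneg k
    rw [abs_le]
    constructor
    · have h7 : (k : ℝ) = 0 ∨ 1 ≤ (k : ℝ) := by
        rcases Nat.eq_zero_or_pos k with h | h
        · left; exact_mod_cast h
        · right; exact_mod_cast h
      rcases h7 with h7 | h7
      · have : γ * M = 0 := by linarith
        rw [h7, this]; nlinarith
      · nlinarith
    · nlinarith
  have hQ := hquad β q hβ0 hβ hq1 hq2
  have hP := hquad α p hα (hαβ.trans hβ) hp1 hp2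
  set Eq : ℝ := (q : ℝ) * (q - 1) - (β * M) ^ 2 with hEq
  set Ep : ℝ := (p : ℝ) * (p - 1) - (α * M) ^ 2 with hEp
  have h8 : c₁ * ((q : ℝ) * (q - 1) - p * (p - 1)) / (2 * M)
      = M * (c₁ * (β ^ 2 - α ^ 2) / 2) + c₁ * (Eq - Ep) / (2 * M) := by
    rw [hEq, hEp]
    field_simp
    ring
  have h9 : -|c₁| ≤ c₁ * (Eq - Ep) / (2 * M) := by
    have h10 : |c₁ * (Eq - Ep) / (2 * M)| ≤ |c₁| := by
      rw [abs_div, abs_mul, abs_of_pos (by positivity : (0 : ℝ) < 2 * M), div_le_iff₀ (by positivity)]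
      have h11 : |Eq - Ep| ≤ 2 * M := by
        have := abs_sub Eq Ep
        linarith
      gcongr
    exact (abs_le.mp h10).1
  have h12 : M * (c₀ * (β - α)) - |c₀| ≤ c₀ * ((q : ℝ) - p) := by
    have h13 : |c₀ * (((q : ℝ) - β * M) - ((p : ℝ) - α * M))| ≤ |c₀| := by
      rw [abs_mul]
      have h14 : |((q : ℝ) - β * M) - ((p : ℝ) - α * M)| ≤ 1 := by
        rw [abs_le]; constructor <;> linarith
      calc |c₀| * |((q : ℝ) - β * M) - ((p : ℝ) - α * M)| ≤ |c₀| * 1 := by gcongr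
        _ = |c₀| := mul_one _
    have h15 := (abs_le.mp h13).1
    linarith
  rw [h8]
  linarith

end MP0f71ae
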