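import Pool.Agent.MP_0f71ae_nt.Transfer

/-!
# From models to lower bounds for `r_3(N)`, in the form used in the literature
-/

namespace MP0f71ae

open Finset Real

/-- `A` contains no non-trivial three-term arithmetic progression `a, a + d, a + 2 d`, `d ≥ 1`. -/
def APFree (A : Finset ℕ) : Prop := ∀ a d : ℕ, 1 ≤ d → a ∈ A → a + d ∈ A → a + 2 * d ∉ A

open Classical in
/-- `r_3(N)`: the largest size of a subset of `{1, …, N}` without three-term progressions. -/
noncomputable def r3 (N : ℕ) : ℕ := ((Icc 1 N).powerset.filter APFree).sup card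

lemma roth_le_r3 (N : ℕ) : rothNumberNat N ≤ r3 N := by
  classical
  obtain ⟨t, ht, hc, hfree⟩ := addRothNumber_spec (range N)
  have h1 : (t.image (· + 1)).card ≤ r3 N := by
    unfold r3
    apply Finset.le_sup (f := card)
    rw [mem_filter, mem_powerset]
    refine ⟨?_, ?_⟩
    · intro x hx
      rw [mem_image] at hx
      obtain ⟨y, hy, rfl⟩ := hx
      have := mem_range.mp (ht hy)
      rw [mem_Icc]; omega
    · intro a d hd h1 h2 h3
      rw [mem_image] at h1 h2 h3
      obtain ⟨x, hx, hx'⟩ := h1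
      obtain ⟨y, hy, hy'⟩ := h2
      obtain ⟨z, hz, hz'⟩ := h3
      have := hfree hx hy hz (by omega)
      omega
  rw [card_image_of_injective _ (add_left_injective 1)] at h1
  have h2 : rothNumberNat N = t.card := hc.symm
  omega

/-- The models with parameter `μ` exist for all large primes. -/
def HasModels (D : ℕ) (μ : ℝ) : Prop := ∃ B c : ℝ, 0 ≤ B ∧ 0 < c ∧
  ∃ M₀, ∀ M : ℕ, M.Prime → M₀ ≤ M →
    ∃ (S : Finset (Fin D → ZMod M)) (f : (Fin D → ZMod M) → ℝ), Model D M μ B c S f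

theorem lower_bound {D : ℕ} (hD : 0 < D) {μ₀ : ℝ} (h0 : 0 < μ₀) (h1 : μ₀ < 1)
    (h : ∀ μ, 0 < μ → μ < μ₀ → HasModels D μ) {ε : ℝ} (hε : 0 < ε) :
    ∃ N₀ : ℕ, ∀ N : ℕ, N₀ ≤ N →
      (N : ℝ) * (2 : ℝ) ^ (-((2 * √(2 * logb 2 (1 / μ₀) / D) + ε) * √(logb 2 N))) ≤ r3 N := by
  have hl2 : 0 < log 2 := log_pos (by norm_num)
  set ε' : ℝ := ε * √(log 2) / 2 with hε'
  have hε'0 : 0 < ε' := by positivity
  -- continuity
  have hcont : ContinuousAt (fun μ : ℝ => 2 * √(2 * log (1 / μ) / D)) μ₀ := by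
    have : ContinuousAt (fun μ : ℝ => log (1 / μ)) μ₀ := by
      apply ContinuousAt.log _ (by positivity)
      exact continuousAt_const.div continuousAt_id h0.ne'
    fun_prop
  obtain ⟨μ, hμ0, hμ1, hμ2⟩ : ∃ μ, 0 < μ ∧ μ < μ₀ ∧
      2 * √(2 * log (1 / μ) / D) ≤ 2 * √(2 * log (1 / μ₀) / D) + ε' := by
    rw [Metric.continuousAt_iff] at hcont
    obtain ⟨δ, hδ, hδ'⟩ := hcont ε' hε'0
    refine ⟨max (μ₀ / 2) (μ₀ - δ / 2), ?_, ?_, ?_⟩
    · exact lt_max_of_lt_left (by positivity)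
    · rw [max_lt_iff]; constructor <;> linarith
    · have h3 : dist (max (μ₀ / 2) (μ₀ - δ / 2)) μ₀ < δ := by
        rw [Real.dist_eq, abs_lt]
        constructor
        · have := le_max_right (μ₀ / 2) (μ₀ - δ / 2)
          linarith
        · have : max (μ₀ / 2) (μ₀ - δ / 2) < μ₀ := by
            rw [max_lt_iff]; constructor <;> linarith
          linarith
      have := hδ' h3
      rw [Real.dist_eq, abs_lt] at this
      linarith [this.2]
  obtain ⟨B, c, hB, hc, hmod⟩ := h μ hμ0 hμ1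
  obtain ⟨N₀, hN₀⟩ := transfer hD hμ0 (hμ1.trans h1) hB hc hmod hε'0
  refine ⟨max N₀ 2, fun N hN => ?_⟩
  have hN1 := hN₀ N (le_trans (le_max_left _ _) hN)
  have hN2 : 2 ≤ N := le_trans (le_max_right _ _) hN
  have hNR : (1 : ℝ) < N := by exact_mod_cast hN2
  have hlogN : 0 < log N := log_pos hNR
  have hr : (rothNumberNat N : ℝ) ≤ r3 N := by exact_mod_cast roth_le_r3 N
  refine le_trans ?_ (hN1.trans hr)
  rw [rpow_def_of_pos (by norm_num : (0 : ℝ) < 2)]
  gcongr
  -- compare the exponents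
  have e1 : √(2 * logb 2 (1 / μ₀) / D) * √(logb 2 N) * log 2
      = √(2 * log (1 / μ₀) / D) * √(log N) := by
    have hL0 : 0 ≤ log (1 / μ₀) := log_nonneg (by rw [le_div_iff₀ h0]; linarith)
    have : logb 2 (1 / μ₀) = log (1 / μ₀) / log 2 := rfl
    rw [this]
    have : logb 2 N = log N / log 2 := rfl
    rw [this]
    have e2 : 2 * (log (1 / μ₀) / log 2) / D = (2 * log (1 / μ₀) / D) / log 2 := by ring
    have e2' : (0 : ℝ) ≤ 2 * log (1 / μ₀) / D := by positivity
    rw [e2, Real.sqrt_div e2' (log 2), Real.sqrt_div hlogN.le (log 2)]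
    have e3 : √(log 2) * √(log 2) = log 2 := mul_self_sqrt hl2.le
    have e4 : √(log 2) ≠ 0 := by positivity
    calc √(2 * log (1 / μ₀) / D) / √(log 2) * (√(log N) / √(log 2)) * log 2
        = √(2 * log (1 / μ₀) / D) * √(log N) * (log 2 / (√(log 2) * √(log 2))) := by
          field_simp
      _ = _ := by rw [e3, div_self hl2.ne', mul_one]
  have e5 : √(logb 2 N) * log 2 = √(log N) * √(log 2) := by
    have : logb 2 N = log N / log 2 := rfl
    rw [this, sqrt_div (by positivity)]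
    have e3 : √(log 2) * √(log 2) = log 2 := mul_self_sqrt hl2.le
    have e4 : √(log 2) ≠ 0 := by positivity
    calc √(log N) / √(log 2) * log 2 = √(log N) / √(log 2) * (√(log 2) * √(log 2)) := by rw [e3]
      _ = √(log N) * √(log 2) := by field_simp
  have e6 : log 2 * -((2 * √(2 * logb 2 (1 / μ₀) / D) + ε) * √(logb 2 N))
      = -(2 * (√(2 * logb 2 (1 / μ₀) / D) * √(logb 2 N) * log 2)
        + ε * (√(logb 2 N) * log 2)) := by ring
  rw [e6, e1, e5]
  have e7 : (2 * √(2 * log (1 / μ) / D) + ε') * √(log N)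
      ≤ (2 * √(2 * log (1 / μ₀) / D) + ε' + ε') * √(log N) := by
    gcongr
  have e8 : ε' + ε' = ε * √(log 2) := by rw [hε']; ring
  have e9 : (2 * √(2 * log (1 / μ₀) / D) + ε' + ε') * √(log N)
      = 2 * (√(2 * log (1 / μ₀) / D) * √(log N)) + ε * (√(log N) * √(log 2)) := by
    rw [add_assoc, e8]; ring
  linarith

end MP0f71ae
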