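import Mathlib

/-!
# Basic regularity facts for the Roth numbers (MP_0f71ae_nt)
-/

set_option autoImplicit false

namespace Pool.Agent.MP_0f71ae_nt.Reg

open Finset

/-- `A` contains no progression `a, a + d, a + 2d` with `d ≥ 1`. -/
def APFree (A : Finset ℕ) : Prop :=
  ∀ a d : ℕ, 1 ≤ d → ¬ (a ∈ A ∧ a + d ∈ A ∧ a + 2 * d ∈ A)

open Classical in
/-- `r3 N` is the largest size of a subset of `{1, …, N}` which contains no progression
`a, a + d, a + 2d` with `d ≥ 1`. -/
noncomputable def r3 (N : ℕ) : ℕ :=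
  ((Finset.Icc 1 N).powerset.filter APFree).sup Finset.card

theorem apFree_iff (A : Finset ℕ) : APFree A ↔ ThreeAPFree (A : Set ℕ) := by
  constructor
  · intro h x hx y hy z hz hxyz
    by_contra hne
    rcases lt_or_gt_of_ne hne with hlt | hlt
    · apply h x (y - x) (by omega)
      refine ⟨by simpa using hx, ?_, ?_⟩
      · have : x + (y - x) = y := by omega
        rw [this]; simpa using hy
      · have : x + 2 * (y - x) = z := by omega
        rw [this]; simpa using hz
    · apply h z (y - z) (by omega)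
      refine ⟨by simpa using hz, ?_, ?_⟩
      · have : z + (y - z) = y := by omega
        rw [this]; simpa using hy
      · have : z + 2 * (y - z) = x := by omega
        rw [this]; simpa using hx
  · intro h a d hd hcon
    obtain ⟨h0, h1, h2⟩ := hcon
    have := h (Finset.mem_coe.2 h0) (Finset.mem_coe.2 h1) (Finset.mem_coe.2 h2) (by omega)
    omega

theorem card_le_r3 {N : ℕ} {A : Finset ℕ} (hA : A ⊆ Finset.Icc 1 N) (h : APFree A) :
    A.card ≤ r3 N := by
  classical
  unfold r3
  apply Finset.le_sup (f := Finset.card)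
  rw [Finset.mem_filter, Finset.mem_powerset]
  exact ⟨hA, h⟩

theorem exists_r3 (N : ℕ) : ∃ A : Finset ℕ, A ⊆ Finset.Icc 1 N ∧ APFree A ∧ A.card = r3 N := by
  classical
  have hne : ((Finset.Icc 1 N).powerset.filter APFree).Nonempty := by
    refine ⟨∅, ?_⟩
    rw [Finset.mem_filter, Finset.mem_powerset]
    refine ⟨Finset.empty_subset _, ?_⟩
    intro a d _ h
    exact absurd h.1 (Finset.notMem_empty a)
  obtain ⟨A, hA, hcard⟩ := Finset.exists_mem_eq_sup _ hne Finset.card
  rw [Finset.mem_filter, Finset.mem_powerset] at hA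
  exact ⟨A, hA.1, hA.2, hcard.symm⟩

theorem r3_eq (N : ℕ) : r3 N = rothNumberNat N := by
  apply le_antisymm
  · obtain ⟨A, hA, hfree, hcard⟩ := exists_r3 N
    have hinj : Set.InjOn (fun n : ℕ => n - 1) (A : Set ℕ) := by
      intro x hx y hy hxy
      have h1 := Finset.mem_Icc.1 (hA hx)
      have h2 := Finset.mem_Icc.1 (hA hy)
      simp only at hxy
      omega
    rw [← hcard]
    refine ThreeAPFree.le_rothNumberNat (A.image (fun n => n - 1)) ?_ ?_ ?_
    · rw [← apFree_iff]
      intro a d hd hcon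
      obtain ⟨h0, h1, h2⟩ := hcon
      obtain ⟨x, hx, hx'⟩ := Finset.mem_image.1 h0
      obtain ⟨y, hy, hy'⟩ := Finset.mem_image.1 h1
      obtain ⟨z, hz, hz'⟩ := Finset.mem_image.1 h2
      have h3 := Finset.mem_Icc.1 (hA hx)
      have h4 := Finset.mem_Icc.1 (hA hy)
      have h5 := Finset.mem_Icc.1 (hA hz)
      apply hfree x d hd
      refine ⟨hx, ?_, ?_⟩
      · have : x + d = y := by omega
        rw [this]; exact hy
      · have : x + 2 * d = z := by omega
        rw [this]; exact hz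
    · intro x hx
      obtain ⟨y, hy, rfl⟩ := Finset.mem_image.1 hx
      have h3 := Finset.mem_Icc.1 (hA hy)
      omega
    · exact Finset.card_image_of_injOn hinj
  · obtain ⟨t, ht, hcard, hfree⟩ := rothNumberNat_spec N
    have hinj : Function.Injective (fun n : ℕ => n + 1) := add_left_injective 1
    rw [← hcard, ← Finset.card_image_of_injective t hinj]
    refine card_le_r3 ?_ ?_
    · intro x hx
      obtain ⟨a, ha, rfl⟩ := Finset.mem_image.1 hx
      have := Finset.mem_range.1 (ht ha)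
      simp only [Finset.mem_Icc]
      omega
    · rw [apFree_iff]
      intro x hx y hy z hz h
      rw [Finset.mem_coe, Finset.mem_image] at hx hy hz
      obtain ⟨x', hx', rfl⟩ := hx
      obtain ⟨y', hy', rfl⟩ := hy
      obtain ⟨z', hz', rfl⟩ := hz
      have := hfree (Finset.mem_coe.2 hx') (Finset.mem_coe.2 hy') (Finset.mem_coe.2 hz') (by omega)
      omega

theorem r3_mono {M N : ℕ} (h : M ≤ N) : r3 M ≤ r3 N := by
  obtain ⟨A, hA, hfree, hcard⟩ := exists_r3 M
  rw [← hcard]
  exact card_le_r3 (hA.trans (Finset.Icc_subset_Icc_right h)) hfree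

theorem r3_add_le (M N : ℕ) : r3 (M + N) ≤ r3 M + r3 N := by
  rw [r3_eq, r3_eq, r3_eq]; exact rothNumberNat_add_le M N

theorem r3_zero : r3 0 = 0 := by rw [r3_eq]; exact rothNumberNat_zero

theorem r3_le (N : ℕ) : r3 N ≤ N := by rw [r3_eq]; exact rothNumberNat_le N

theorem r3_pos {N : ℕ} (h : 1 ≤ N) : 1 ≤ r3 N := by
  have h1 : APFree {1} := by
    intro a d hd hcon
    have h0 := Finset.mem_singleton.1 hcon.1
    have h2 := Finset.mem_singleton.1 hcon.2.1
    omega
  have := card_le_r3 (N := N) (A := {1}) (by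
    intro x hx
    rw [Finset.mem_singleton] at hx
    rw [Finset.mem_Icc]; omega) h1
  simpa using this

theorem r3_mul_le (k n : ℕ) : r3 (k * n) ≤ k * r3 n := by
  induction k with
  | zero => simp [r3_zero]
  | succ k ih =>
    rw [Nat.succ_mul, Nat.succ_mul]
    exact (r3_add_le _ _).trans (Nat.add_le_add_right ih _)

/-- `r₃(m) ≤ (⌊m/n⌋ + 1) r₃(n)`. -/
theorem r3_le_div (m n : ℕ) (hn : 1 ≤ n) : r3 m ≤ (m / n + 1) * r3 n := by
  have h1 : m ≤ (m / n + 1) * n := by
    have := Nat.lt_div_mul_add (a := m) (b := n) (by omega)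
    nlinarith
  exact (r3_mono h1).trans (r3_mul_le _ _)

/-- Supermultiplicativity: `r₃(a) r₃(b) ≤ r₃((2a-1) b)`. -/
theorem r3_mul_ge (a b : ℕ) (ha : 1 ≤ a) : r3 a * r3 b ≤ r3 ((2 * a - 1) * b) := by
  rw [r3_eq, r3_eq, r3_eq]
  obtain ⟨T, hT, hTc, hTf⟩ := rothNumberNat_spec a
  obtain ⟨S, hS, hSc, hSf⟩ := rothNumberNat_spec b
  set c := 2 * a - 1 with hc
  have hinj : Set.InjOn (fun p : ℕ × ℕ => p.1 + c * p.2) ((T ×ˢ S : Finset (ℕ × ℕ)) : Set (ℕ × ℕ)) := by
    rintro ⟨t, s⟩ h ⟨t', s'⟩ h' heq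
    rw [Finset.mem_coe, Finset.mem_product] at h h'
    have h1 := Finset.mem_range.1 (hT h.1)
    have h2 := Finset.mem_range.1 (hT h'.1)
    simp only at heq h1 h2
    have h3 : s = s' := by
      have e1 : (t + c * s) / c = s := by
        rw [Nat.add_mul_div_left _ _ (by omega), Nat.div_eq_of_lt (by omega), zero_add]
      have e2 : (t' + c * s') / c = s' := by
        rw [Nat.add_mul_div_left _ _ (by omega), Nat.div_eq_of_lt (by omega), zero_add]
      rw [← e1, ← e2, heq]
    subst h3
    have : t = t' := by omega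
    rw [this]
  rw [← hTc, ← hSc, ← Finset.card_product]
  refine ThreeAPFree.le_rothNumberNat ((T ×ˢ S).image (fun p : ℕ × ℕ => p.1 + c * p.2)) ?_ ?_
    (Finset.card_image_of_injOn hinj)
  · intro x hx y hy z hz hxyz
    rw [Finset.mem_coe, Finset.mem_image] at hx hy hz
    obtain ⟨⟨t1, s1⟩, h1, rfl⟩ := hx
    obtain ⟨⟨t2, s2⟩, h2, rfl⟩ := hy
    obtain ⟨⟨t3, s3⟩, h3, rfl⟩ := hz
    rw [Finset.mem_product] at h1 h2 h3
    have b1 := Finset.mem_range.1 (hT h1.1)
    have b2 := Finset.mem_range.1 (hT h2.1)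
    have b3 := Finset.mem_range.1 (hT h3.1)
    simp only at hxyz b1 b2 b3 h1 h2 h3
    have key : s1 + s3 = s2 + s2 := by
      have e1 : (t1 + t3) + c * (s1 + s3) = (t2 + t2) + c * (s2 + s2) := by
        rw [mul_add, mul_add]; omega
      have l1 : t1 + t3 < c := by omega
      have l2 : t2 + t2 < c := by omega
      have f1 : ((t1 + t3) + c * (s1 + s3)) / c = s1 + s3 := by
        rw [Nat.add_mul_div_left _ _ (by omega), Nat.div_eq_of_lt l1, zero_add]
      have f2 : ((t2 + t2) + c * (s2 + s2)) / c = s2 + s2 := by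
        rw [Nat.add_mul_div_left _ _ (by omega), Nat.div_eq_of_lt l2, zero_add]
      rw [← f1, ← f2, e1]
    have key2 : t1 + t3 = t2 + t2 := by
      have e1 : (t1 + t3) + c * (s1 + s3) = (t2 + t2) + c * (s2 + s2) := by
        rw [mul_add, mul_add]; omega
      rw [key] at e1
      omega
    have hs := hSf (Finset.mem_coe.2 h1.2) (Finset.mem_coe.2 h2.2) (Finset.mem_coe.2 h3.2) key
    have ht := hTf (Finset.mem_coe.2 h1.1) (Finset.mem_coe.2 h2.1) (Finset.mem_coe.2 h3.1) key2
    simp only
    rw [hs, ht]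
  · intro x hx
    rw [Finset.mem_image] at hx
    obtain ⟨⟨t1, s1⟩, h1, rfl⟩ := hx
    rw [Finset.mem_product] at h1
    have b1 := Finset.mem_range.1 (hT h1.1)
    have b2 := Finset.mem_range.1 (hS h1.2)
    simp only at b1 b2 ⊢
    have : c * (s1 + 1) ≤ c * b := Nat.mul_le_mul_left _ (by omega)
    have h5 : c * (s1 + 1) = c * s1 + c := by ring
    omega

/-- Behrend's bound. -/
theorem behrend (N : ℕ) : (N : ℝ) * Real.exp (-4 * √(Real.log N)) ≤ r3 N := by
  rw [r3_eq]; exact Behrend.roth_lower_bound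

/-- The part of a progression-free set in an arithmetic progression of length `L`. -/
theorem card_inter_ap_le {A : Finset ℕ} (hA : APFree A) (a q L : ℕ) (hq : 1 ≤ q) :
    (A.filter (fun x => ∃ j < L, x = a + q * j)).card ≤ r3 L := by
  classical
  set B : Finset ℕ := (Finset.range L).filter (fun j => a + q * j ∈ A) with hB
  have h1 : (A.filter (fun x => ∃ j < L, x = a + q * j)) = B.image (fun j => a + q * j) := by
    ext x
    simp only [Finset.mem_filter, Finset.mem_image, Finset.mem_range, hB]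
    constructor
    · rintro ⟨hx, j, hj, rfl⟩
      exact ⟨j, ⟨hj, hx⟩, rfl⟩
    · rintro ⟨j, ⟨hj, hx⟩, rfl⟩
      exact ⟨hx, j, hj, rfl⟩
  rw [h1, r3_eq]
  refine Finset.card_image_le.trans ?_
  refine ThreeAPFree.le_rothNumberNat B ?_ ?_ rfl
  · intro x hx y hy z hz h
    simp only [Finset.mem_coe, hB, Finset.mem_filter] at hx hy hz
    have hf := (apFree_iff A).1 hA (Finset.mem_coe.2 hx.2) (Finset.mem_coe.2 hy.2)
      (Finset.mem_coe.2 hz.2) (by
        have : q * (x + z) = q * (y + y) := by rw [h]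
        rw [mul_add, mul_add] at this
        omega)
    have h2 : q * x = q * y := by omega
    exact Nat.eq_of_mul_eq_mul_left (by omega) h2
  · intro x hx
    simp only [hB, Finset.mem_filter, Finset.mem_range] at hx
    exact hx.1

end Pool.Agent.MP_0f71ae_nt.Reg
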