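import Pool.Agent.MP_0f71ae_nt.RegScales

/-!
# Covering the complement of a progression by progressions (MP_0f71ae_nt)
-/

set_option autoImplicit false

namespace Pool.Agent.MP_0f71ae_nt.Reg

open Finset

/-- The part of `A` in the progression `a, a + q, …, a + q (L - 1)`. -/
theorem card_le_cover {A : Finset ℕ} (hA : APFree A) {N : ℕ} (hAN : A ⊆ Finset.Icc 1 N)
    (a q L : ℕ) (hq : 1 ≤ q) (hL : 1 ≤ L) (hP : ∀ j < L, a + q * j ∈ Finset.Icc 1 N) :
    ∃ u v : ℕ, u + L + v = N / q + 1 ∧
      A.card ≤ (A.filter (fun x => ∃ j < L, x = a + q * j)).card +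
        ((q - 1) * r3 (N / q + 1) + r3 u + r3 v) := by
  classical
  set a0 := a % q with ha0
  set i0 := a / q with hi0
  have haeq : a = a0 + q * i0 := (Nat.mod_add_div a q).symm
  have hlast := (Finset.mem_Icc.1 (hP (L - 1) (by omega))).2
  have hi : i0 + L ≤ N / q + 1 := by
    have h1 : q * (i0 + (L - 1)) ≤ N := by
      have : q * (i0 + (L - 1)) = q * i0 + q * (L - 1) := by ring
      omega
    have h2 : i0 + (L - 1) ≤ N / q := (Nat.le_div_iff_mul_le (by omega)).2 (by rw [mul_comm]; exact h1)
    omega
  set v := N / q + 1 - (i0 + L) with hv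
  refine ⟨i0, v, by omega, ?_⟩
  have hcover : A ⊆ (A.filter (fun x => ∃ j < L, x = a + q * j)) ∪
      ((((Finset.range q).erase a0).biUnion
        (fun c => A.filter (fun x => ∃ j < N / q + 1, x = c + q * j))) ∪
      ((A.filter (fun x => ∃ j < i0, x = a0 + q * j)) ∪
        (A.filter (fun x => ∃ j < v, x = (a + q * L) + q * j)))) := by
    intro x hx
    have hxN := Finset.mem_Icc.1 (hAN hx)
    have hxeq : x = x % q + q * (x / q) := (Nat.mod_add_div x q).symm
    have hxq : x / q ≤ N / q := Nat.div_le_div_right hxN.2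
    have hxm : x % q < q := Nat.mod_lt _ (by omega)
    simp only [Finset.mem_union, Finset.mem_biUnion, Finset.mem_filter, Finset.mem_erase,
      Finset.mem_range]
    by_cases hc : x % q = a0
    · by_cases h1 : x / q < i0
      · right; right; left
        exact ⟨hx, x / q, h1, by rw [← hc]; exact hxeq⟩
      · by_cases h2 : x / q < i0 + L
        · left
          refine ⟨hx, x / q - i0, by omega, ?_⟩
          obtain ⟨w, hw⟩ := Nat.exists_eq_add_of_le (not_lt.1 h1)
          have : x / q - i0 = w := by omega
          rw [this, haeq]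
          rw [hc, hw] at hxeq
          rw [hxeq]; ring
        · right; right; right
          obtain ⟨w, hw⟩ := Nat.exists_eq_add_of_le (not_lt.1 h2)
          refine ⟨hx, w, by omega, ?_⟩
          rw [haeq]
          rw [hc, hw] at hxeq
          rw [hxeq]; ring
    · right; left
      exact ⟨x % q, ⟨hc, hxm⟩, hx, x / q, by omega, hxeq⟩
  have hcard := Finset.card_le_card hcover
  refine hcard.trans ((Finset.card_union_le _ _).trans ?_)
  apply Nat.add_le_add_left
  refine (Finset.card_union_le _ _).trans ?_
  rw [add_assoc]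
  apply Nat.add_le_add
  · refine Finset.card_biUnion_le.trans ?_
    refine (Finset.sum_le_card_nsmul _ _ (r3 (N / q + 1))
      (fun c _ => card_inter_ap_le hA c q _ hq)).trans ?_
    rw [smul_eq_mul, Finset.card_erase_of_mem (Finset.mem_range.2 (Nat.mod_lt _ (by omega))),
      Finset.card_range]
  · refine (Finset.card_union_le _ _).trans ?_
    exact Nat.add_le_add (card_inter_ap_le hA a0 q _ hq) (card_inter_ap_le hA (a + q * L) q _ hq)

end Pool.Agent.MP_0f71ae_nt.Reg
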