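import Pool.Agent.MP_0f71ae_nt.Count2
import Pool.Agent.MP_0f71ae_nt.Final

/-!
# An explicit two-dimensional set of measure 71/240
-/

namespace MP0f71ae

open Finset

/-- profile of the light columns -/
noncomputable def eA (b : ℝ) : ℝ := max (2 / 5 - 6 / 5 * b) 0

/-- profile of the heavy columns -/
noncomputable def yA (β : ℝ) : ℝ := min (min (2 / 5 + 12 / 5 * β) (1 / 2)) (4 / 5 - 12 / 5 * β)

lemma profileA : Profile eA yA (1 / 3) where
  δ0 := by norm_num
  δ1 := by norm_num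
  e0 b _ _ := le_max_right _ _
  y1 β _ _ := (min_le_left _ _).trans (min_le_right _ _)
  c1 b₁ b₃ _ _ _ _ _ := by
    have h1 : yA ((b₁ + b₃) / 2) ≤ 4 / 5 - 12 / 5 * ((b₁ + b₃) / 2) := min_le_right _ _
    have h2 : 2 / 5 - 6 / 5 * b₁ ≤ eA b₁ := le_max_left _ _
    have h3 : 2 / 5 - 6 / 5 * b₃ ≤ eA b₃ := le_max_left _ _
    linarith
  c2 β₁ b₃ _ _ _ _ _ := by
    have h1 : yA ((1 / 2 + β₁ + b₃) / 2) ≤ 4 / 5 - 12 / 5 * ((1 / 2 + β₁ + b₃) / 2) :=
      min_le_right _ _
    have h2 : yA β₁ ≤ 2 / 5 + 12 / 5 * β₁ := (min_le_left _ _).trans (min_le_left _ _)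
    have h3 : 2 / 5 - 6 / 5 * b₃ ≤ eA b₃ := le_max_left _ _
    linarith

/-- the affine pieces of the column measure -/
noncomputable def piece (α β c₀ c₁ x : ℝ) : ℝ := if α ≤ x ∧ x < β then c₀ + c₁ * x else 0

/-- lower bound for the measure of the columns -/
noncomputable def colA (w x : ℝ) : ℝ :=
  piece 0 (1 / 3) (1 / 10) (6 / 5) x + piece (1 / 3) (1 / 2 - w) (1 / 2) 0 x
    + piece (1 / 2) (13 / 24) (-4 / 5) (12 / 5) x + piece (13 / 24) (5 / 8) (1 / 2) 0 x
    + piece (5 / 8) (5 / 6) 2 (-12 / 5) x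

lemma colA_light {w x : ℝ} (hw : 0 < w) (hw1 : w < 1 / 6) (h0 : 0 ≤ x) (h1 : x < 1 / 2 - w) :
    colA w x ≤ 1 / 2 - eA x := by
  unfold colA piece eA
  rcases lt_or_ge x (1 / 3) with h | h
  · rw [if_pos ⟨h0, h⟩, if_neg (by intro h'; linarith [h'.1]), if_neg (by intro h'; linarith [h'.1]),
      if_neg (by intro h'; linarith [h'.1]), if_neg (by intro h'; linarith [h'.1]),
      max_eq_left (by linarith)]
    linarith
  · rw [if_neg (by intro h'; linarith [h'.2]), if_pos ⟨h, h1⟩, if_neg (by intro h'; linarith [h'.1]),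
      if_neg (by intro h'; linarith [h'.1]), if_neg (by intro h'; linarith [h'.1]),
      max_eq_right (by linarith)]
    linarith

lemma colA_heavy {w x : ℝ} (hw : 0 < w) (h0 : 1 / 2 ≤ x) (h1 : x < 5 / 6) :
    colA w x ≤ yA (x - 1 / 2) := by
  unfold colA piece yA
  rcases lt_or_ge x (13 / 24) with h | h
  · rw [if_neg (by intro h'; linarith [h'.2]), if_neg (by intro h'; linarith [h'.2]),
      if_pos ⟨h0, h⟩, if_neg (by intro h'; linarith [h'.1]), if_neg (by intro h'; linarith [h'.1])]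
    rw [le_min_iff, le_min_iff]
    refine ⟨⟨?_, ?_⟩, ?_⟩ <;> linarith
  · rcases lt_or_ge x (5 / 8) with h2 | h2
    · rw [if_neg (by intro h'; linarith [h'.2]), if_neg (by intro h'; linarith [h'.2]),
        if_neg (by intro h'; linarith [h'.2]), if_pos ⟨h, h2⟩,
        if_neg (by intro h'; linarith [h'.1])]
      rw [le_min_iff, le_min_iff]
      refine ⟨⟨?_, ?_⟩, ?_⟩ <;> linarith
    · rw [if_neg (by intro h'; linarith [h'.2]), if_neg (by intro h'; linarith [h'.2]),
        if_neg (by intro h'; linarith [h'.2]), if_neg (by intro h'; linarith [h'.2]),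
        if_pos ⟨h2, h1⟩]
      rw [le_min_iff, le_min_iff]
      refine ⟨⟨?_, ?_⟩, ?_⟩ <;> linarith

lemma colA_other {w x : ℝ} (hw : 0 < w) (hw1 : w < 1 / 6)
    (h : ¬ (0 ≤ x ∧ x < 1 / 2 - w) ∧ ¬ (1 / 2 ≤ x ∧ x < 5 / 6)) : colA w x = 0 := by
  obtain ⟨h1, h2⟩ := h
  unfold colA piece
  rw [if_neg, if_neg, if_neg, if_neg, if_neg]
  · ring
  · exact fun h' => h2 ⟨by linarith [h'.1], by linarith [h'.2]⟩
  · exact fun h' => h2 ⟨by linarith [h'.1], by linarith [h'.2]⟩
  · exact fun h' => h2 ⟨by linarith [h'.1], by linarith [h'.2]⟩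
  · exact fun h' => h1 ⟨by linarith [h'.1], by linarith [h'.2]⟩
  · exact fun h' => h1 ⟨by linarith [h'.1], by linarith [h'.2]⟩

lemma sum_piece (M : ℕ) (hM : 0 < M) {α β : ℝ} (c₀ c₁ : ℝ) (hα : 0 ≤ α) (hαβ : α ≤ β)
    (hβ : β ≤ 1) :
    M * (c₀ * (β - α) + c₁ * (β ^ 2 - α ^ 2) / 2) - (|c₀| + |c₁|) ≤
      ∑ i ∈ range M, piece α β c₀ c₁ ((i : ℝ) / M) := by
  have h := sum_affine M hM c₀ c₁ hα hαβ hβ
  rw [sum_filter] at h
  exact h

lemma sum_colA (M : ℕ) (hM : 0 < M) {w : ℝ} (hw : 0 < w) (hw1 : w < 1 / 6) :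
    M * (71 / 240 - w / 2) - 10 ≤ ∑ i ∈ range M, colA w ((i : ℝ) / M) := by
  unfold colA
  rw [sum_add_distrib, sum_add_distrib, sum_add_distrib, sum_add_distrib]
  have h1 := sum_piece M hM (α := 0) (β := 1 / 3) (1 / 10) (6 / 5) (by norm_num) (by norm_num)
    (by norm_num)
  have h2 := sum_piece M hM (α := 1 / 3) (β := 1 / 2 - w) (1 / 2) 0 (by norm_num) (by linarith)
    (by linarith)
  have h3 := sum_piece M hM (α := 1 / 2) (β := 13 / 24) (-4 / 5) (12 / 5) (by norm_num)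
    (by norm_num) (by norm_num)
  have h4 := sum_piece M hM (α := 13 / 24) (β := 5 / 8) (1 / 2) 0 (by norm_num)
    (by norm_num) (by norm_num)
  have h5 := sum_piece M hM (α := 5 / 8) (β := 5 / 6) 2 (-12 / 5) (by norm_num)
    (by norm_num) (by norm_num)
  norm_num [abs_of_pos, abs_of_neg] at h1 h2 h3 h4 h5
  linarith

open Classical in
/-- the number of points of the set -/
lemma card_setA (M : ℕ) [NeZero M] {w : ℝ} (hw : 0 < w) (hw1 : w < 1 / 6) :
    (M : ℝ) * (M * (71 / 240 - w / 2) - 10) - 2 * M ≤ ((set2 eA yA (1 / 3) w M).card : ℝ) := by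
  have hM := Mpos (M := M)
  have hcol := card_columns (M := M) (InS eA yA (1 / 3) w)
    (fun x => M * colA w x - 2) ?_
  · refine le_trans ?_ hcol
    rw [sum_sub_distrib, ← mul_sum, sum_const, card_range, nsmul_eq_mul]
    have := sum_colA M (NeZero.pos M) hw hw1
    have h3 : (M : ℝ) * (M * (71 / 240 - w / 2) - 10)
        ≤ M * ∑ i ∈ range M, colA w ((i : ℝ) / M) := by gcongr
    linarith
  · intro b
    have hb0 : 0 ≤ bR b := by unfold bR; positivity
    by_cases hL : 0 ≤ bR b ∧ bR b < 1 / 2 - w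
    · have h1 := col_light (M := M) (1 / 4 - eA (bR b) / 2) (by
        have := le_max_right (2 / 5 - 6 / 5 * bR b) (0 : ℝ)
        unfold eA; linarith)
      have h2 : (univ.filter (fun t : ZMod M => |aR t| < 1 / 4 - eA (bR b) / 2)).card ≤
          (univ.filter (fun t : ZMod M => InS eA yA (1 / 3) w (aR t) (bR b))).card := by
        apply card_le_card
        intro t ht
        simp only [mem_filter, mem_univ, true_and] at ht ⊢
        exact Or.inl ⟨hL.1, hL.2, ht⟩
      have h3 : ((univ.filter (fun t : ZMod M => |aR t| < 1 / 4 - eA (bR b) / 2)).card : ℝ) ≤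
          ((univ.filter (fun t : ZMod M => InS eA yA (1 / 3) w (aR t) (bR b))).card : ℝ) := by exact_mod_cast h2
      have h4 := colA_light hw hw1 hL.1 hL.2
      have h5 : (M : ℝ) * colA w (bR b) ≤ M * (1 / 2 - eA (bR b)) := by gcongr
      linarith
    · by_cases hH : 1 / 2 ≤ bR b ∧ bR b < 5 / 6
      · have h1 := col_heavy (M := M) (yA (bR b - 1 / 2))
          ((min_le_left _ _).trans (min_le_right _ _))
        have h2 : (univ.filter (fun t : ZMod M => |sh (aR t)| < yA (bR b - 1 / 2) / 2)).card ≤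
            (univ.filter (fun t : ZMod M => InS eA yA (1 / 3) w (aR t) (bR b))).card := by
          apply card_le_card
          intro t ht
          simp only [mem_filter, mem_univ, true_and] at ht ⊢
          exact Or.inr ⟨hH.1, by linarith [hH.2], ht⟩
        have h3 : ((univ.filter (fun t : ZMod M =>
            |sh (aR t)| < yA (bR b - 1 / 2) / 2)).card : ℝ) ≤
            ((univ.filter (fun t : ZMod M => InS eA yA (1 / 3) w (aR t) (bR b))).card : ℝ) := by exact_mod_cast h2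
        have h4 := colA_heavy hw hH.1 hH.2
        have h5 : (M : ℝ) * colA w (bR b) ≤ M * yA (bR b - 1 / 2) := by gcongr
        linarith
      · show (M : ℝ) * colA w (bR b) - 2 ≤ _
        rw [colA_other hw hw1 ⟨hL, hH⟩]
        have : (0 : ℝ) ≤ ((univ.filter (fun t : ZMod M =>
            InS eA yA (1 / 3) w (aR t) (bR b))).card : ℝ) := Nat.cast_nonneg _
        linarith

theorem hasModelsA (μ : ℝ) (hμ1 : μ < 71 / 240) : HasModels 2 μ := by
  set g : ℝ := 71 / 240 - μ with hg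
  have hg0 : 0 < g := by rw [hg]; linarith
  set w : ℝ := min (1 / 12) g with hw
  have hw0 : 0 < w := lt_min (by norm_num) hg0
  have hw1 : w ≤ 1 / 12 := min_le_left _ _
  have hw2 : w ≤ g := min_le_right _ _
  set K : ℝ := 1 / w ^ 2 with hK
  have hK1 : 1 ≤ K * w ^ 2 := by rw [hK]; field_simp; exact le_refl _
  have hK0 : 0 ≤ K := by rw [hK]; positivity
  refine ⟨K + 1, 1 / 8, by positivity, by norm_num, ⌈24 / g⌉₊ + 1, fun M hM hM1 => ?_⟩
  have : NeZero M := ⟨hM.ne_zero⟩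
  refine ⟨set2 eA yA (1 / 3) w M, _, model2 profileA hw0 (by linarith) hK1 hK0 M ?_⟩
  refine le_trans ?_ (card_setA M hw0 (by linarith))
  have hMR : 24 / g ≤ M := le_trans (Nat.le_ceil _) (by
    have : ⌈24 / g⌉₊ ≤ M := by omega
    exact_mod_cast this)
  rw [div_le_iff₀ hg0] at hMR
  have hMpos := Mpos (M := M)
  have h1 : μ = 71 / 240 - g := by rw [hg]; ring
  rw [h1]
  have h2 : (M : ℝ) * w ≤ M * g := by gcongr
  nlinarith

end MP0f71ae
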