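import Pool.Agent.MP_0f71ae_nt.Transfer

/-!
# A family of two-dimensional models

Columns `b ∈ [0, 1/2 - w)` carry an arc of length `1/2 - e b` around `0`; columns
`b = 1/2 + β`, `β ∈ [0, δ)`, carry the set of `a` with `2 a` at distance `< y β / 2` from `1/2`.
-/

namespace MP0f71ae

open Finset

/-- `2 a - 1/2` reduced to a small number when `a` is near `± 1/4`. -/
noncomputable def sh (a : ℝ) : ℝ := if 0 ≤ a then 2 * a - 1 / 2 else 2 * a + 1 / 2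

lemma sh_cases (a : ℝ) : ∃ σ : ℤ, (σ = 1 ∨ σ = -1) ∧ sh a = 2 * a - σ / 2 := by
  unfold sh
  split_ifs
  · exact ⟨1, Or.inl rfl, by push_cast; ring⟩
  · exact ⟨-1, Or.inr rfl, by push_cast; ring⟩

/-- Membership in a light column. -/
def InL (e : ℝ → ℝ) (w a b : ℝ) : Prop := 0 ≤ b ∧ b < 1 / 2 - w ∧ |a| < 1 / 4 - e b / 2

/-- Membership in a heavy column. -/
def InH (y : ℝ → ℝ) (δ a b : ℝ) : Prop :=
  1 / 2 ≤ b ∧ b < 1 / 2 + δ ∧ |sh a| < y (b - 1 / 2) / 2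

/-- The potential. -/
noncomputable def pot (K a b : ℝ) : ℝ := K * b ^ 2 + if b < 1 / 2 then a ^ 2 else sh a ^ 2

/-- The conditions on the two profile functions. -/
structure Profile (e y : ℝ → ℝ) (δ : ℝ) : Prop where
  δ0 : 0 < δ
  δ1 : δ ≤ 1 / 2
  e0 : ∀ b, 0 ≤ b → b < 1 / 2 → 0 ≤ e b
  y1 : ∀ β, 0 ≤ β → β < δ → y β ≤ 1 / 2
  c1 : ∀ b₁ b₃, 0 ≤ b₁ → b₁ < 1 / 2 → 0 ≤ b₃ → b₃ < 1 / 2 → (b₁ + b₃) / 2 < δ →
    y ((b₁ + b₃) / 2) ≤ e b₁ + e b₃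
  c2 : ∀ β₁ b₃, 0 ≤ β₁ → β₁ < δ → 0 ≤ b₃ → b₃ < 1 / 2 → (1 / 2 + β₁ + b₃) / 2 < δ →
    2 * y ((1 / 2 + β₁ + b₃) / 2) + y β₁ ≤ 2 * e b₃

section Real

variable {e y : ℝ → ℝ} {δ w K : ℝ}

lemma int_zero_of_abs_lt_one {k : ℤ} (h : |(k : ℝ)| < 1) : k = 0 := by
  have : |k| < 1 := by exact_mod_cast h
  exact Int.abs_lt_one_iff.mp this

/-- no progression of type light, heavy, light with the middle point on the other side -/
lemma noLHL (P : Profile e y δ) {a₁ a₂ a₃ b₁ b₂ b₃ : ℝ} (hw : 0 < w)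
    (h₁ : InL e w a₁ b₁) (h₂ : InH y δ a₂ b₂) (h₃ : InL e w a₃ b₃) {ka : ℤ}
    (ha : a₁ + a₃ - 2 * a₂ = ka) (hb : b₁ + b₃ - 2 * b₂ = -1) : False := by
  obtain ⟨hb10, hb11, ha1⟩ := h₁
  obtain ⟨hb20, hb21, ha2⟩ := h₂
  obtain ⟨hb30, hb31, ha3⟩ := h₃
  have hβ : b₂ - 1 / 2 = (b₁ + b₃) / 2 := by linarith
  have hc := P.c1 b₁ b₃ hb10 (by linarith) hb30 (by linarith) (by linarith)
  rw [hβ] at ha2
  obtain ⟨σ, hσ, hs⟩ := sh_cases a₂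
  rw [hs] at ha2
  rw [abs_lt] at ha1 ha2 ha3
  have h4 : (-1 : ℝ) < 2 * ka + σ := by linarith [ha1.1, ha2.1, ha3.1, ha1.2, ha2.2, ha3.2]
  have h5 : (2 : ℝ) * ka + σ < 1 := by linarith [ha1.1, ha2.1, ha3.1, ha1.2, ha2.2, ha3.2]
  have h6 : (-1 : ℤ) < 2 * ka + σ := by exact_mod_cast h4
  have h7 : 2 * ka + σ < (1 : ℤ) := by exact_mod_cast h5
  rcases hσ with hσ | hσ <;> subst hσ <;> omega

/-- no progression of type heavy, heavy, light with the middle point on the other side -/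
lemma noHHL (P : Profile e y δ) {a₁ a₂ a₃ b₁ b₂ b₃ : ℝ} (hw : 0 < w)
    (h₁ : InH y δ a₁ b₁) (h₂ : InH y δ a₂ b₂) (h₃ : InL e w a₃ b₃) {ka : ℤ}
    (ha : a₁ + a₃ - 2 * a₂ = ka) (hb : b₁ + b₃ - 2 * b₂ = -1) : False := by
  obtain ⟨hb10, hb11, ha1⟩ := h₁
  obtain ⟨hb20, hb21, ha2⟩ := h₂
  obtain ⟨hb30, hb31, ha3⟩ := h₃
  have hβ : b₂ - 1 / 2 = (1 / 2 + (b₁ - 1 / 2) + b₃) / 2 := by linarith
  have hc := P.c2 (b₁ - 1 / 2) b₃ (by linarith) (by linarith) hb30 (by linarith) (by linarith)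
  rw [hβ] at ha2
  obtain ⟨σ, hσ, hs⟩ := sh_cases a₂
  obtain ⟨τ, hτ, ht⟩ := sh_cases a₁
  rw [hs] at ha2
  rw [ht] at ha1
  rw [abs_lt] at ha1 ha2 ha3
  have h4 : (-1 : ℝ) < 4 * ka + 2 * σ - τ := by
    linarith [ha1.1, ha2.1, ha3.1, ha1.2, ha2.2, ha3.2]
  have h5 : (4 : ℝ) * ka + 2 * σ - τ < 1 := by
    linarith [ha1.1, ha2.1, ha3.1, ha1.2, ha2.2, ha3.2]
  have h6 : (-1 : ℤ) < 4 * ka + 2 * σ - τ := by exact_mod_cast h4
  have h7 : 4 * ka + 2 * σ - τ < (1 : ℤ) := by exact_mod_cast h5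
  rcases hσ with hσ | hσ <;> subst hσ <;> rcases hτ with hτ | hτ <;> subst hτ <;> omega

lemma potL {a b : ℝ} (h : InL e w a b) (hw : 0 < w) : pot K a b = K * b ^ 2 + a ^ 2 := by
  unfold pot; rw [if_pos (by linarith [h.2.1])]

lemma potH {a b : ℝ} (h : InH y δ a b) : pot K a b = K * b ^ 2 + sh a ^ 2 := by
  unfold pot; rw [if_neg (by linarith [h.1])]

lemma fibL (P : Profile e y δ) {a b : ℝ} (h : InL e w a b) (hw : 0 < w) : a ^ 2 ≤ 1 / 16 := by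
  have h1 := P.e0 b h.1 (by linarith [h.2.1])
  have h2 := h.2.2
  rw [abs_lt] at h2
  nlinarith [h2.1, h2.2]

lemma fibH (P : Profile e y δ) {a b : ℝ} (h : InH y δ a b) : sh a ^ 2 ≤ 1 / 16 := by
  have h1 := P.y1 (b - 1 / 2) (by linarith [h.1]) (by linarith [h.2.1])
  have h2 := h.2.2
  rw [abs_lt] at h2
  nlinarith [h2.1, h2.2]

/-- the fibre parts are harmless when the base gap is large -/
lemma gap_of_base {a₁ a₃ b₁ b₂ b₃ φ₁ φ₂ φ₃ : ℝ} (ha1 : |a₁| ≤ 1 / 2) (ha3 : |a₃| ≤ 1 / 2)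
    (hb1 : 0 ≤ b₁) (hb1' : b₁ ≤ 1) (hb3 : 0 ≤ b₃) (hb3' : b₃ ≤ 1)
    (h1 : 0 ≤ φ₁) (h3 : 0 ≤ φ₃) (h2 : φ₂ ≤ 1 / 16)
    (hgap : 3 / 8 ≤ K * b₁ ^ 2 + K * b₃ ^ 2 - 2 * (K * b₂ ^ 2)) :
    1 / 8 * ((a₁ - a₃) ^ 2 + (b₁ - b₃) ^ 2)
      ≤ (K * b₁ ^ 2 + φ₁) + (K * b₃ ^ 2 + φ₃) - 2 * (K * b₂ ^ 2 + φ₂) := by
  rw [abs_le] at ha1 ha3
  have e1 : (a₁ - a₃) ^ 2 ≤ 1 := by nlinarith
  have e2 : (b₁ - b₃) ^ 2 ≤ 1 := by nlinarith
  linarith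

/-- the base gap when the middle point is the true midpoint and the outer columns differ -/
lemma base_gap_zero (hw : 0 < w) (hK : 1 ≤ K * w ^ 2) {b₁ b₂ b₃ : ℝ} (hb : b₁ + b₃ - 2 * b₂ = 0)
    (hd : w ≤ |b₁ - b₃|) : 3 / 8 ≤ K * b₁ ^ 2 + K * b₃ ^ 2 - 2 * (K * b₂ ^ 2) := by
  have h1 : b₂ = (b₁ + b₃) / 2 := by linarith
  have hK0 : 0 < K := by
    by_contra hcon
    push Not at hcon
    nlinarith [sq_nonneg w]
  have h2 : w ^ 2 ≤ (b₁ - b₃) ^ 2 := by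
    rw [← sq_abs (b₁ - b₃)]
    gcongr
  have h3 : K * b₁ ^ 2 + K * b₃ ^ 2 - 2 * (K * b₂ ^ 2) = K * (b₁ - b₃) ^ 2 / 2 := by
    rw [h1]; ring
  rw [h3]
  have h4 : K * w ^ 2 ≤ K * (b₁ - b₃) ^ 2 := by gcongr
  linarith

/-- the base gap when the middle point is the lower one of the two half points -/
lemma base_gap_one (hw : 0 < w) (hw1 : w ≤ 1) (hK : 1 ≤ K * w ^ 2) {b₁ b₂ b₃ : ℝ}
    (hb2 : 0 ≤ b₂) (hb : b₁ + b₃ - 2 * b₂ = 1) :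
    3 / 8 ≤ K * b₁ ^ 2 + K * b₃ ^ 2 - 2 * (K * b₂ ^ 2) := by
  have hK0 : 0 < K := by
    by_contra hcon
    push Not at hcon
    nlinarith [sq_nonneg w]
  have hK1 : 1 ≤ K := by
    have : w ^ 2 ≤ 1 := by nlinarith
    nlinarith
  have h1 : b₂ = (b₁ + b₃ - 1) / 2 := by linarith
  have h2 : 1 / 2 ≤ b₁ ^ 2 + b₃ ^ 2 - 2 * b₂ ^ 2 := by
    have h3 : 1 ≤ b₁ + b₃ := by linarith
    rw [h1]
    nlinarith [sq_nonneg (b₁ - b₃)]
  nlinarith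

/-- The real form of the midpoint inequality. -/
theorem real_mid (P : Profile e y δ) (hw : 0 < w) (hw1 : w ≤ 1) (hK : 1 ≤ K * w ^ 2)
    {a₁ a₂ a₃ b₁ b₂ b₃ : ℝ} (ha₁ : |a₁| ≤ 1 / 2) (ha₃ : |a₃| ≤ 1 / 2)
    (h₁ : InL e w a₁ b₁ ∨ InH y δ a₁ b₁) (h₂ : InL e w a₂ b₂ ∨ InH y δ a₂ b₂)
    (h₃ : InL e w a₃ b₃ ∨ InH y δ a₃ b₃) {ka kb : ℤ}
    (ha : a₁ + a₃ - 2 * a₂ = ka) (hb : b₁ + b₃ - 2 * b₂ = kb) :
    1 / 8 * ((a₁ - a₃) ^ 2 + (b₁ - b₃) ^ 2) ≤ pot K a₁ b₁ + pot K a₃ b₃ - 2 * pot K a₂ b₂ := by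
  have δ1 := P.δ1
  have hrange : ∀ {a b : ℝ}, InL e w a b ∨ InH y δ a b → 0 ≤ b ∧ b < 1 := by
    intro a b h
    rcases h with h | h
    · exact ⟨h.1, by linarith [h.2.1]⟩
    · exact ⟨by linarith [h.1], by linarith [h.2.1]⟩
  obtain ⟨b10, b11⟩ := hrange h₁
  obtain ⟨b20, b21⟩ := hrange h₂
  obtain ⟨b30, b31⟩ := hrange h₃
  have hK0 : 0 < K := by
    by_contra hcon
    push Not at hcon
    nlinarith [sq_nonneg w]
  have hK1 : 1 ≤ K := by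
    have : w ^ 2 ≤ 1 := by nlinarith
    nlinarith
  -- general description of the potential
  have hpot : ∀ {a b : ℝ}, InL e w a b ∨ InH y δ a b →
      ∃ φ, pot K a b = K * b ^ 2 + φ ∧ 0 ≤ φ ∧ φ ≤ 1 / 16 := by
    intro a b h
    rcases h with h | h
    · exact ⟨a ^ 2, potL h hw, sq_nonneg _, fibL P h hw⟩
    · exact ⟨sh a ^ 2, potH h, sq_nonneg _, fibH P h⟩
  have hbig : 3 / 8 ≤ K * b₁ ^ 2 + K * b₃ ^ 2 - 2 * (K * b₂ ^ 2) →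
      1 / 8 * ((a₁ - a₃) ^ 2 + (b₁ - b₃) ^ 2)
        ≤ pot K a₁ b₁ + pot K a₃ b₃ - 2 * pot K a₂ b₂ := by
    intro hg
    obtain ⟨φ₁, e1, p1, _⟩ := hpot h₁
    obtain ⟨φ₂, e2, _, q2⟩ := hpot h₂
    obtain ⟨φ₃, e3, p3, _⟩ := hpot h₃
    rw [e1, e2, e3]
    exact gap_of_base ha₁ ha₃ b10 b11.le b30 b31.le p1 p3 q2 hg
  have hkb1 : (-2 : ℝ) < kb := by rw [← hb]; linarith
  have hkb2 : (kb : ℝ) < 2 := by rw [← hb]; linarith
  have hkb3 : (-2 : ℤ) < kb := by exact_mod_cast hkb1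
  have hkb4 : kb < (2 : ℤ) := by exact_mod_cast hkb2
  have hkb : kb = -1 ∨ kb = 0 ∨ kb = 1 := by omega
  rcases hkb with hkb | hkb | hkb
  · -- the bad case
    exfalso
    rw [hkb] at hb
    push_cast at hb
    have hb2H : InH y δ a₂ b₂ := by
      rcases h₂ with h | h
      · exfalso; linarith [h.2.1]
      · exact h
    rcases h₁ with h₁ | h₁ <;> rcases h₃ with h₃ | h₃
    · exact noLHL P hw h₁ hb2H h₃ ha hb
    · exact noHHL P hw h₃ hb2H h₁ (ka := ka) (by rw [← ha]; ring) (by rw [← hb]; ring)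
    · exact noHHL P hw h₁ hb2H h₃ ha hb
    · have := h₁.1
      have := h₃.1
      linarith [hb2H.2.1]
  · rw [hkb] at hb
    push_cast at hb
    rcases h₁ with h₁ | h₁ <;> rcases h₃ with h₃ | h₃
    · -- all light
      have hb2L : InL e w a₂ b₂ := by
        rcases h₂ with h | h
        · exact h
        · exfalso; linarith [h.1, h₁.2.1, h₃.2.1]
      have e1 := P.e0 b₁ h₁.1 (by linarith [h₁.2.1])
      have e2 := P.e0 b₂ hb2L.1 (by linarith [hb2L.2.1])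
      have e3 := P.e0 b₃ h₃.1 (by linarith [h₃.2.1])
      have hka : ka = 0 := by
        apply int_zero_of_abs_lt_one
        rw [← ha]
        have h4 := abs_lt.mp h₁.2.2
        have h5 := abs_lt.mp hb2L.2.2
        have h6 := abs_lt.mp h₃.2.2
        rw [abs_lt]
        constructor <;> linarith [h4.1, h4.2, h5.1, h5.2, h6.1, h6.2]
      rw [hka] at ha
      push_cast at ha
      rw [potL h₁ hw, potL hb2L hw, potL h₃ hw]
      have ea : a₂ = (a₁ + a₃) / 2 := by linarith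
      have eb : b₂ = (b₁ + b₃) / 2 := by linarith
      rw [ea, eb]
      nlinarith [sq_nonneg (a₁ - a₃), sq_nonneg (b₁ - b₃),
        mul_nonneg (by linarith : (0 : ℝ) ≤ K - 1) (sq_nonneg (b₁ - b₃))]
    · apply hbig
      apply base_gap_zero hw hK hb
      rw [abs_sub_comm]
      exact le_trans (by linarith [h₁.2.1, h₃.1]) (le_abs_self _)
    · apply hbig
      apply base_gap_zero hw hK hb
      exact le_trans (by linarith [h₁.1, h₃.2.1]) (le_abs_self _)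
    · -- all heavy
      have hb2H : InH y δ a₂ b₂ := by
        rcases h₂ with h | h
        · exfalso; linarith [h.2.1, h₁.1, h₃.1]
        · exact h
      have y1 := P.y1 (b₁ - 1 / 2) (by linarith [h₁.1]) (by linarith [h₁.2.1])
      have y2 := P.y1 (b₂ - 1 / 2) (by linarith [hb2H.1]) (by linarith [hb2H.2.1])
      have y3 := P.y1 (b₃ - 1 / 2) (by linarith [h₃.1]) (by linarith [h₃.2.1])
      have h4 := abs_lt.mp h₁.2.2
      have h5 := abs_lt.mp hb2H.2.2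
      have h6 := abs_lt.mp h₃.2.2
      obtain ⟨σ₁, hσ₁, hs₁⟩ := sh_cases a₁
      obtain ⟨σ₂, hσ₂, hs₂⟩ := sh_cases a₂
      obtain ⟨σ₃, hσ₃, hs₃⟩ := sh_cases a₃
      have hrel : sh a₁ + sh a₃ - 2 * sh a₂ = ((2 * ka + σ₂ : ℤ) : ℝ) - ((σ₁ + σ₃ : ℤ) : ℝ) / 2 := by
        rw [hs₁, hs₂, hs₃]; push_cast; linarith
      have hlt : |sh a₁ + sh a₃ - 2 * sh a₂| < 1 := by
        rw [abs_lt]; constructor <;> linarith [h4.1, h4.2, h5.1, h5.2, h6.1, h6.2]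
      have hσeq : σ₁ = σ₃ ∧ sh a₁ + sh a₃ - 2 * sh a₂ = 0 := by
        rw [hrel] at hlt ⊢
        rw [abs_lt] at hlt
        have h7 : (-2 : ℝ) < ((2 * (2 * ka + σ₂) - (σ₁ + σ₃) : ℤ) : ℝ) := by
          push_cast at hlt ⊢; linarith [hlt.1]
        have h8 : ((2 * (2 * ka + σ₂) - (σ₁ + σ₃) : ℤ) : ℝ) < 2 := by
          push_cast at hlt ⊢; linarith [hlt.2]
        have h9 : (-2 : ℤ) < 2 * (2 * ka + σ₂) - (σ₁ + σ₃) := by exact_mod_cast h7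
        have h10 : 2 * (2 * ka + σ₂) - (σ₁ + σ₃) < (2 : ℤ) := by exact_mod_cast h8
        have h11 : σ₁ = σ₃ ∧ 2 * (2 * ka + σ₂) - (σ₁ + σ₃) = 0 := by
          rcases hσ₁ with h | h <;> rcases hσ₂ with h' | h' <;> rcases hσ₃ with h'' | h'' <;>
            subst h <;> subst h' <;> subst h'' <;> constructor <;> omega
        refine ⟨h11.1, ?_⟩
        have h12 : ((2 * (2 * ka + σ₂) - (σ₁ + σ₃) : ℤ) : ℝ) = 0 := by exact_mod_cast h11.2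
        push_cast at h12 ⊢
        linarith
      rw [potH h₁, potH hb2H, potH h₃]
      have es : sh a₂ = (sh a₁ + sh a₃) / 2 := by linarith [hσeq.2]
      have eb : b₂ = (b₁ + b₃) / 2 := by linarith
      have ea : a₁ - a₃ = (sh a₁ - sh a₃) / 2 := by
        rw [hs₁, hs₃, hσeq.1]; ring
      rw [es, eb, ea]
      nlinarith [sq_nonneg (sh a₁ - sh a₃), sq_nonneg (b₁ - b₃),
        mul_nonneg (by linarith : (0 : ℝ) ≤ K - 1) (sq_nonneg (b₁ - b₃))]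
  · apply hbig
    rw [hkb] at hb
    push_cast at hb
    exact base_gap_one hw hw1 hK b20 hb

end Real

end MP0f71ae
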