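import Pool.Agent.MP_0f71ae_nt.TwoDim

namespace MP0f71ae

open Finset

/-- symmetric representative -/
noncomputable def aR {M : ℕ} (t : ZMod M) : ℝ := (t.valMinAbs : ℝ) / M

/-- nonnegative representative -/
noncomputable def bR {M : ℕ} (t : ZMod M) : ℝ := (t.val : ℝ) / M

section

variable {M : ℕ} [NeZero M]

lemma Mpos : (0 : ℝ) < M := by
  have := NeZero.pos M
  exact_mod_cast this

lemma abs_aR_le (t : ZMod M) : |aR t| ≤ 1 / 2 := by
  have h := ZMod.valMinAbs_mem_Ioc t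
  have h1 : (-(M : ℤ) : ℤ) < t.valMinAbs * 2 := h.1
  have h2 : t.valMinAbs * 2 ≤ (M : ℤ) := h.2
  have h3 : (-(M : ℝ)) < t.valMinAbs * 2 := by exact_mod_cast h1
  have h4 : (t.valMinAbs : ℝ) * 2 ≤ M := by exact_mod_cast h2
  have hM := Mpos (M := M)
  unfold aR
  rw [abs_div, abs_of_pos hM, div_le_iff₀ hM, abs_le]
  constructor <;> linarith

/-- any integer representative bounds the circle norm -/
lemma cnorm_le_of_int (t : ZMod M) (k : ℤ) (hk : (k : ZMod M) = t) : cnorm t ≤ |(k : ℝ)| / M := by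
  unfold cnorm
  have hM := Mpos (M := M)
  have h1 : t.valMinAbs.natAbs ≤ k.natAbs := by
    apply ZMod.natAbs_min_of_le_div_two M
    · rw [ZMod.coe_valMinAbs, hk]
    · exact ZMod.natAbs_valMinAbs_le t
  have h2 : |t.valMinAbs| ≤ |k| := by
    rw [Int.abs_eq_natAbs, Int.abs_eq_natAbs]; exact_mod_cast h1
  have h3 : |(t.valMinAbs : ℝ)| ≤ |(k : ℝ)| := by exact_mod_cast h2
  gcongr

lemma cnorm_sub_le_aR (s t : ZMod M) : cnorm (s - t) ^ 2 ≤ (aR s - aR t) ^ 2 := by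
  have h := cnorm_le_of_int (s - t) (s.valMinAbs - t.valMinAbs) (by simp)
  have h2 : |((s.valMinAbs - t.valMinAbs : ℤ) : ℝ)| / M = |aR s - aR t| := by
    unfold aR
    rw [← sub_div, abs_div, abs_of_pos (Mpos (M := M))]
    push_cast; rfl
  rw [h2] at h
  rw [← sq_abs (aR s - aR t)]
  have := cnorm_nonneg (s - t)
  gcongr

lemma cnorm_sub_le_bR (s t : ZMod M) : cnorm (s - t) ^ 2 ≤ (bR s - bR t) ^ 2 := by
  have h := cnorm_le_of_int (s - t) ((s.val : ℤ) - (t.val : ℤ)) (by simp)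
  have h2 : |(((s.val : ℤ) - (t.val : ℤ) : ℤ) : ℝ)| / M = |bR s - bR t| := by
    unfold bR
    rw [← sub_div, abs_div, abs_of_pos (Mpos (M := M))]
    push_cast; rfl
  rw [h2] at h
  rw [← sq_abs (bR s - bR t)]
  have := cnorm_nonneg (s - t)
  gcongr

lemma aR_ap {x y z : ZMod M} (h : x + z = y + y) : ∃ k : ℤ, aR x + aR z - 2 * aR y = k := by
  have h1 : (((x.valMinAbs + z.valMinAbs - 2 * y.valMinAbs : ℤ)) : ZMod M) = 0 := by
    push_cast
    rw [h]; ring
  rw [ZMod.intCast_zmod_eq_zero_iff_dvd] at h1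
  obtain ⟨k, hk⟩ := h1
  refine ⟨k, ?_⟩
  have h2 : ((x.valMinAbs + z.valMinAbs - 2 * y.valMinAbs : ℤ) : ℝ) = ((M * k : ℤ) : ℝ) := by
    exact_mod_cast congrArg (Int.cast : ℤ → ℝ) hk
  push_cast at h2
  have hM := Mpos (M := M)
  unfold aR
  field_simp
  linarith

lemma bR_ap {x y z : ZMod M} (h : x + z = y + y) : ∃ k : ℤ, bR x + bR z - 2 * bR y = k := by
  have h1 : ((((x.val : ℤ) + (z.val : ℤ) - 2 * (y.val : ℤ) : ℤ)) : ZMod M) = 0 := by
    push_cast
    rw [ZMod.natCast_zmod_val, ZMod.natCast_zmod_val, ZMod.natCast_zmod_val, h]; ring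
  rw [ZMod.intCast_zmod_eq_zero_iff_dvd] at h1
  obtain ⟨k, hk⟩ := h1
  refine ⟨k, ?_⟩
  have h2 : (((x.val : ℤ) + (z.val : ℤ) - 2 * (y.val : ℤ) : ℤ) : ℝ) = ((M * k : ℤ) : ℝ) := by
    exact_mod_cast congrArg (Int.cast : ℤ → ℝ) hk
  push_cast at h2
  have hM := Mpos (M := M)
  unfold bR
  field_simp
  linarith

end

section Model2

variable {e y : ℝ → ℝ} {δ w K : ℝ}

/-- Membership in the planar set attached to a profile. -/
def InS (e y : ℝ → ℝ) (δ w a b : ℝ) : Prop := InL e w a b ∨ InH y δ a b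

open Classical in
/-- The finite set attached to a profile. -/
noncomputable def set2 (e y : ℝ → ℝ) (δ w : ℝ) (M : ℕ) [NeZero M] : Finset (Fin 2 → ZMod M) :=
  univ.filter fun v => InS e y δ w (aR (v 0)) (bR (v 1))

lemma pot_nonneg {a b : ℝ} (hK : 0 ≤ K) : 0 ≤ pot K a b := by
  unfold pot; split_ifs <;> positivity

/-- a profile gives a model as soon as the cardinality is large enough -/
theorem model2 (P : Profile e y δ) (hw : 0 < w) (hw1 : w ≤ 1) (hK : 1 ≤ K * w ^ 2) (hK0 : 0 ≤ K)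
    (M : ℕ) [NeZero M] {μ : ℝ} (hcard : μ * (M : ℝ) ^ 2 ≤ (set2 e y δ w M).card) :
    Model 2 M μ (K + 1) (1 / 8) (set2 e y δ w M)
      (fun v => pot K (aR (v 0)) (bR (v 1))) := by
  refine ⟨hcard, fun v _ => pot_nonneg hK0, ?_, ?_⟩
  · intro v hv
    simp only [set2, mem_filter, mem_univ, true_and] at hv
    have δ1 := P.δ1
    rcases hv with h | h
    · rw [potL h hw]
      have h1 := fibL P h hw
      have h2 : bR (v 1) ^ 2 ≤ 1 := by nlinarith [h.1, h.2.1]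
      nlinarith
    · rw [potH h]
      have h1 := fibH P h
      have h2 : bR (v 1) ^ 2 ≤ 1 := by nlinarith [h.1, h.2.1]
      nlinarith
  · intro x hx y' hy z hz hxz
    simp only [set2, mem_filter, mem_univ, true_and] at hx hy hz
    obtain ⟨ka, hka⟩ := aR_ap (congrFun hxz 0 : x 0 + z 0 = y' 0 + y' 0)
    obtain ⟨kb, hkb⟩ := bR_ap (congrFun hxz 1 : x 1 + z 1 = y' 1 + y' 1)
    have h1 := real_mid (K := K) P hw hw1 hK (abs_aR_le _) (abs_aR_le _) hx hy hz hka hkb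
    have h2 := cnorm_sub_le_aR (x 0) (z 0)
    have h3 := cnorm_sub_le_bR (x 1) (z 1)
    rw [Fin.sum_univ_two]
    linarith

end Model2

end MP0f71ae
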